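import Mathlib
import Pool.Agent.Helper21.SR.St

/-!
# Project SR, module MAIN: assembly
-/

set_option autoImplicit false

namespace Pool.Agent.Helper47.SR

open Finset
open scoped Pointwise
open Pool.Agent.Helper17.WES (D lam D_pos D_nonneg lam_mul)
open Pool.Agent.Helper21.SR

private lemma px_sum_MAIN (w : ℕ → ℕ → ℝ) (A : Finset ℕ) (x : ℕ) (hx : x ∈ A) :
    ∑ l ∈ A * A, px w A x l = ∑ y ∈ A, w x y := by
  unfold px
  rw [Finset.sum_comm]
  refine Finset.sum_congr rfl fun y hy => ?_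
  rw [Finset.sum_ite_eq]
  rw [if_pos (Finset.mul_mem_mul hx hy)]

private lemma py_sum_MAIN (w : ℕ → ℕ → ℝ) (A : Finset ℕ) (k : ℕ) (x : ℕ) :
    ∑ l ∈ Ly A k, py w k x l = (∑ y ∈ A, w x y) ^ k := by
  unfold Ly py
  rw [← Finset.prod_univ_sum (fun _ : Fin k => A) (fun _ y => w x y)]
  simp

private lemma px_le_MAIN (w : ℕ → ℕ → ℝ) (A : Finset ℕ) (x l : ℕ) (hx : 0 < x) (B : ℝ)
    (hB : 0 ≤ B) (hw : ∀ y, w x y ≤ B) : px w A x l ≤ B := by
  unfold px
  rw [← Finset.sum_filter]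
  have h1 : (A.filter (fun y => x * y = l)).card ≤ 1 := by
    rw [Finset.card_le_one]
    intro a ha b hb
    rw [Finset.mem_filter] at ha hb
    have : x * a = x * b := by rw [ha.2, hb.2]
    exact Nat.eq_of_mul_eq_mul_left hx this
  calc ∑ y ∈ A.filter (fun y => x * y = l), w x y ≤ ∑ y ∈ A.filter (fun y => x * y = l), B :=
        Finset.sum_le_sum fun y _ => hw y
    _ = (A.filter (fun y => x * y = l)).card * B := by rw [Finset.sum_const, nsmul_eq_mul]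
    _ ≤ 1 * B := by
        apply mul_le_mul_of_nonneg_right _ hB
        exact_mod_cast h1
    _ = B := one_mul B

private lemma bern_MAIN (a : ℝ) (h0 : 0 ≤ a) : 1 - a ^ 8 ≤ 8 * (1 - a) := by
  have h := one_add_mul_le_pow (a := a - 1) (by linarith) 8
  have h2 : (1 + (a - 1)) = a := by ring
  rw [h2] at h
  push_cast at h
  linarith

theorem hMain (hCnt : StCnt) (hUni : StUni) (hWk1 : StWk1) (hWk2 : StWk2) (hWk3 : StWk3) :
    StMain := by
  intro A M f ρ hpos hcard hM hDM hreg hf hρ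
  have hne : A.Nonempty := Finset.card_pos.1 (by omega)
  obtain ⟨hw1, hrow, hsymm⟩ := hWk1 A f ρ hpos hne
  have hw2 := hWk2 A f ρ hne hf hρ
  have hw3 := hWk3 A f ρ hpos hne hf hρ
  have hn0 : (0 : ℝ) < (A.card : ℝ) := by
    have : 0 < A.card := by omega
    exact_mod_cast this
  have hβ0 : 0 ≤ ρ / ((A.card : ℝ) * f) := by positivity
  -- abbreviations
  have hpx0 : ∀ x l, 0 ≤ px (wg A f ρ) A x l := by
    intro x l
    unfold px
    refine Finset.sum_nonneg fun y _ => ?_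
    split_ifs
    · exact (hw1 x y).1
    · exact le_rfl
  have hpx1 : ∀ x l, px (wg A f ρ) A x l ≤ px (wk A) A x l := by
    intro x l
    unfold px
    refine Finset.sum_le_sum fun y _ => ?_
    split_ifs
    · exact (hw1 x y).2
    · exact le_rfl
  have hpy0 : ∀ x (l : Fin 8 → ℕ), 0 ≤ py (wg A f ρ) 8 x l := fun x l =>
    Finset.prod_nonneg fun i _ => (hw1 x (l i)).1
  have hpy1 : ∀ x (l : Fin 8 → ℕ), py (wg A f ρ) 8 x l ≤ py (wk A) 8 x l := fun x l =>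
    Finset.prod_le_prod (fun i _ => (hw1 x (l i)).1) (fun i _ => (hw1 x (l i)).2)
  have hcnt := hCnt ℕ (Fin 8 → ℕ) A (A * A) (Ly A 8) (px (wk A) A) (px (wg A f ρ) A)
    (py (wk A) 8) (py (wg A f ρ) 8) M (999 / 1000) ((ρ / ((A.card : ℝ) * f)) ^ 9) hpos hne
    (fun x _ l _ => ⟨hpx0 x l, hpx1 x l⟩) (fun x _ l _ => ⟨hpy0 x l, hpy1 x l⟩)
    (fun x hx => by rw [px_sum_MAIN _ _ _ hx, hrow x hx])
    (fun x hx => by rw [py_sum_MAIN, hrow x hx, one_pow])
    (pow_nonneg hβ0 9)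
    (fun x hx x' hx' l hl m hm => by
      have h1 : px (wg A f ρ) A x l ≤ ρ / ((A.card : ℝ) * f) :=
        px_le_MAIN _ A x l (hpos x hx) _ hβ0 (fun y => hw2 x y)
      have h2 : py (wg A f ρ) 8 x' m ≤ (ρ / ((A.card : ℝ) * f)) ^ 8 := by
        unfold py
        calc ∏ i : Fin 8, wg A f ρ x' (m i) ≤ ∏ i : Fin 8, ρ / ((A.card : ℝ) * f) :=
              Finset.prod_le_prod (fun i _ => (hw1 x' (m i)).1) (fun i _ => hw2 x' (m i))
          _ = (ρ / ((A.card : ℝ) * f)) ^ 8 := by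
              rw [Finset.prod_const, Finset.card_univ, Fintype.card_fin]
      calc px (wg A f ρ) A x l * py (wg A f ρ) 8 x' m
          ≤ ρ / ((A.card : ℝ) * f) * (ρ / ((A.card : ℝ) * f)) ^ 8 :=
            mul_le_mul h1 h2 (hpy0 x' m) hβ0
        _ = (ρ / ((A.card : ℝ) * f)) ^ 9 := by ring)
    hM hDM
    (fun k => by
      have hadd : Addv A (lam k) := by
        intro x hx s hs y hy t ht hxy
        rw [← lam_mul k x s (hpos x hx).ne' (hpos s hs).ne',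
          ← lam_mul k y t (hpos y hy).ne' (hpos t ht).ne', hxy]
      exact hUni A (lam k) hpos hne hadd)
  -- the bad part
  have hbad : ∑ x ∈ A, ∑ x' ∈ A, ∑ l ∈ A * A, ∑ m ∈ Ly A 8,
      (px (wk A) A x l * py (wk A) 8 x' m - px (wg A f ρ) A x l * py (wg A f ρ) 8 x' m) ≤
      9 * (A.card : ℝ) * ∑ x ∈ A, ∑ y ∈ A, (wk A x y - wg A f ρ x y) := by
    have hinner : ∀ x ∈ A, ∀ x' ∈ A, ∑ l ∈ A * A, ∑ m ∈ Ly A 8,
        (px (wk A) A x l * py (wk A) 8 x' m - px (wg A f ρ) A x l * py (wg A f ρ) 8 x' m) ≤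
        (∑ y ∈ A, (wk A x y - wg A f ρ x y)) + 8 * ∑ y ∈ A, (wk A x' y - wg A f ρ x' y) := by
      intro x hx x' hx'
      have e1 : ∑ l ∈ A * A, ∑ m ∈ Ly A 8,
        (px (wk A) A x l * py (wk A) 8 x' m - px (wg A f ρ) A x l * py (wg A f ρ) 8 x' m) =
        (∑ l ∈ A * A, px (wk A) A x l) * (∑ m ∈ Ly A 8, py (wk A) 8 x' m) -
        (∑ l ∈ A * A, px (wg A f ρ) A x l) * (∑ m ∈ Ly A 8, py (wg A f ρ) 8 x' m) := by
        rw [Finset.sum_mul_sum, Finset.sum_mul_sum, ← Finset.sum_sub_distrib]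
        refine Finset.sum_congr rfl fun l _ => ?_
        rw [← Finset.sum_sub_distrib]
      rw [e1, px_sum_MAIN _ _ _ hx, px_sum_MAIN _ _ _ hx, py_sum_MAIN, py_sum_MAIN,
        Finset.sum_sub_distrib, Finset.sum_sub_distrib, hrow x hx, hrow x' hx']
      have ha0 : ∀ z, 0 ≤ ∑ y ∈ A, wg A f ρ z y := fun z =>
        Finset.sum_nonneg fun y _ => (hw1 z y).1
      have ha1 : ∀ z ∈ A, ∑ y ∈ A, wg A f ρ z y ≤ 1 := fun z hz => by
        rw [← hrow z hz]
        exact Finset.sum_le_sum fun y _ => (hw1 z y).2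
      have h1 := ha0 x
      have h2 := ha1 x hx
      have h3 := ha0 x'
      have h4 := ha1 x' hx'
      have h5 := bern_MAIN _ h3
      have h6 : (∑ y ∈ A, wg A f ρ x' y) ^ 8 ≤ 1 := pow_le_one₀ h3 h4
      have h7 : 0 ≤ (∑ y ∈ A, wg A f ρ x' y) ^ 8 := pow_nonneg h3 8
      nlinarith [mul_nonneg (sub_nonneg.2 h2) (sub_nonneg.2 h6)]
    calc ∑ x ∈ A, ∑ x' ∈ A, ∑ l ∈ A * A, ∑ m ∈ Ly A 8,
      (px (wk A) A x l * py (wk A) 8 x' m - px (wg A f ρ) A x l * py (wg A f ρ) 8 x' m)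
        ≤ ∑ x ∈ A, ∑ x' ∈ A, ((∑ y ∈ A, (wk A x y - wg A f ρ x y)) +
            8 * ∑ y ∈ A, (wk A x' y - wg A f ρ x' y)) :=
          Finset.sum_le_sum fun x hx => Finset.sum_le_sum fun x' hx' => hinner x hx x' hx'
      _ = 9 * (A.card : ℝ) * ∑ x ∈ A, ∑ y ∈ A, (wk A x y - wg A f ρ x y) := by
          simp only [Finset.sum_add_distrib, Finset.sum_const, nsmul_eq_mul, ← Finset.mul_sum]
          ring
  have hbad2 : ∑ x ∈ A, ∑ x' ∈ A, ∑ l ∈ A * A, ∑ m ∈ Ly A 8,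
      (px (wk A) A x l * py (wk A) 8 x' m - px (wg A f ρ) A x l * py (wg A f ρ) 8 x' m) ≤
      9 * (A.card : ℝ) * (f * ((A * A).card : ℝ) / (A.card : ℝ) +
        Eb A ρ / ((A.card : ℝ) * f)) :=
    hbad.trans (mul_le_mul_of_nonneg_left hw3 (by positivity))
  have hLy : ((Ly A 8).card : ℝ) = (A.card : ℝ) ^ 8 := by
    unfold Ly
    rw [Fintype.card_piFinset]
    simp
  rw [hLy] at hcnt
  -- positivity of the total distance
  have hT : 0 < ∑ a ∈ A, ∑ b ∈ A, D a b := by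
    obtain ⟨a, ha, b, hb, hab⟩ := Finset.one_lt_card.1 (by omega : 1 < A.card)
    have h1 : 0 < D a b := D_pos a b (hpos a ha) (hpos b hb) hab
    have h2 : D a b ≤ ∑ b ∈ A, D a b :=
      Finset.single_le_sum (f := fun b => D a b) (fun c _ => D_nonneg a c) hb
    have h3 : ∑ b ∈ A, D a b ≤ ∑ a ∈ A, ∑ b ∈ A, D a b :=
      Finset.single_le_sum (f := fun a => ∑ b ∈ A, D a b)
        (fun c _ => Finset.sum_nonneg fun d _ => D_nonneg c d) ha
    linarith
  have hMpos : 0 < M := by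
    rcases hM.lt_or_eq with h | h
    · exact h
    · exfalso
      rw [← h, zero_mul] at hcnt
      linarith
  have hfin : M * ((A.card : ℝ) ^ 2 / 20000) ≤ M * (((A + A).card : ℝ) * ((A * A).card : ℝ) *
      (A.card : ℝ) ^ 8 * (ρ / ((A.card : ℝ) * f)) ^ 9 +
      9 * (A.card : ℝ) * (f * ((A * A).card : ℝ) / (A.card : ℝ) +
        Eb A ρ / ((A.card : ℝ) * f))) := by
    have h1 := mul_le_mul_of_nonneg_left (add_le_add_right hbad2
      (((A + A).card : ℝ) * ((A * A).card : ℝ) *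
      (A.card : ℝ) ^ 8 * (ρ / ((A.card : ℝ) * f)) ^ 9)) hM
    linarith
  exact le_of_mul_le_mul_left hfin hMpos

end Pool.Agent.Helper47.SR
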