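import Pool.Agent.Helper5.SR.St4
import Pool.Agent.Helper71.TU.X5aux

set_option autoImplicit false

namespace Pool.Agent.Helper47.SR.FDF

open Helper5.SR Pool.Agent.Helper51.LT
open Complex MeasureTheory Set Metric Filter Topology
open scoped Real
open Pool.Agent.Helper60.Rel (LH)

/-- Lipschitz constant on the closed disc -/
lemma exists_lip {f : ℂ → ℂ} {R : ℝ} (hR : 1 < R) (hf : DifferentiableOn ℂ f (ball 0 R)) :
    ∃ Λ : ℝ, 0 < Λ ∧ ∀ x ∈ closedBall (0 : ℂ) 1, ∀ y ∈ closedBall (0 : ℂ) 1,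
      ‖f x - f y‖ ≤ Λ * ‖x - y‖ := by
  have hsub : closedBall (0 : ℂ) 1 ⊆ ball 0 R := closedBall_subset_ball hR
  have hc : ContinuousOn (deriv f) (closedBall 0 1) :=
    ((hf.deriv isOpen_ball).continuousOn).mono hsub
  obtain ⟨B, hB⟩ := (isCompact_closedBall (0 : ℂ) 1).exists_bound_of_continuousOn hc
  refine ⟨max B 1, by positivity, ?_⟩
  intro x hx y hy
  exact (convex_closedBall (0 : ℂ) 1).norm_image_sub_le_of_norm_deriv_le
    (fun z hz => hf.differentiableAt (isOpen_ball.mem_nhds (hsub hz)))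
    (fun z hz => (hB z hz).trans (le_max_left _ _)) hy hx

theorem hFdf (hD2 : StD2) : StFdf := by
  intro f R hR hf hf0 η r C hη hr0 hr1 hC
  obtain ⟨Λ, hΛ, hLip⟩ := exists_lip hR hf.1
  set r' : ℝ := max r (1 / 2) with hr'
  have hr'0 : 0 < r' := lt_of_lt_of_le (by norm_num) (le_max_right _ _)
  have hr'1 : r' < 1 := max_lt hr1 (by norm_num)
  have hlog : 0 < Real.log (1 / r') := Real.log_pos (by rw [lt_div_iff₀ hr'0]; linarith)
  obtain ⟨M₀, hM₀⟩ := exists_nat_ge (max (2 * C) (max (1 / Real.log (1 / r')) (8 * C * Λ / η)))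
  have a1 : 2 * C ≤ M₀ := (le_max_left _ _).trans hM₀
  have a2 : 1 / Real.log (1 / r') ≤ M₀ := ((le_max_left _ _).trans (le_max_right _ _)).trans hM₀
  have a3 : 8 * C * Λ / η ≤ M₀ := ((le_max_right _ _).trans (le_max_right _ _)).trans hM₀
  refine ⟨M₀, a1, ?_⟩
  intro m M h θ ξ c C₀ hM hAtt hclose
  obtain ⟨-, hhBU, hh0, hc, -, -, -, -, -, -, hin⟩ := hAtt
  have hMr : (M₀ : ℝ) ≤ M := by exact_mod_cast hM
  have hM0 : (0 : ℝ) < M := by linarith
  have h1M : 1 ≤ M * Real.log (1 / r') := by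
    rw [div_le_iff₀ hlog] at a2
    nlinarith
  have hsmall : Λ * (4 * C / M) ≤ η / 2 := by
    rw [div_le_iff₀ hη] at a3
    rw [← mul_div_assoc, div_le_iff₀ hM0]
    nlinarith
  have h0b : (0 : ℂ) ∈ ball (0 : ℂ) 1 := mem_ball_self one_pos
  have hhm : ∀ x ∈ ball (0 : ℂ) 1, h x ∈ ball (0 : ℂ) 1 := by
    intro x hx
    have h1 := hin x hx
    rw [mem_ball_zero_iff] at hx ⊢
    nlinarith
  have hf'0 : deriv f 0 ≠ 0 :=
    Pool.TU.X5.deriv_ne_zero_of_injOn isOpen_ball hf.1 hf.2 (mem_ball_self (by linarith))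
  have hn1 : 0 < 1 - ‖h 0‖ := by
    have := hhm 0 h0b
    rw [mem_ball_zero_iff] at this
    linarith
  have hh0' : 0 < ‖deriv h 0‖ := norm_pos_iff.2 hh0
  have hf'0' : 0 < ‖deriv f 0‖ := norm_pos_iff.2 hf'0
  refine ⟨‖deriv f 0‖ * (1 - ‖h 0‖) ^ 4 / ‖deriv h 0‖, by positivity, ?_⟩
  intro K φ hK hK1 hφ hφ0 hφn hφc
  have hφm : ∀ x ∈ ball (0 : ℂ) 1, φ x ∈ ball (0 : ℂ) 1 := by
    intro x hx
    have h1 := hφn x hx
    rw [mem_ball_zero_iff] at hx ⊢
    linarith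
  have hKh : deriv K (h 0) ≠ 0 :=
    Pool.TU.X5.deriv_ne_zero_of_injOn isOpen_ball hK.1 hK.2 (hhm 0 h0b)
  have hKh' : 0 < ‖deriv K (h 0)‖ := norm_pos_iff.2 hKh
  set A : ℂ := deriv f 0 / (deriv K (h 0) * deriv h 0) with hA
  have hA0 : A ≠ 0 := div_ne_zero hf'0 (mul_ne_zero hKh hh0)
  set G : ℂ → ℂ := fun z => K (h (φ z)) with hG
  have hGd : DifferentiableOn ℂ G (ball 0 1) :=
    hK.1.comp (hhBU.1.1.comp hφ.1.1 hφm) (fun x hx => hhm _ (hφm x hx))
  have hGat : ∀ z ∈ ball (0 : ℂ) 1, HasDerivAt G (deriv K (h (φ z)) * (deriv h (φ z) * deriv φ z)) z := by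
    intro z hz
    have e1 : HasDerivAt φ (deriv φ z) z :=
      (hφ.1.1.differentiableAt (isOpen_ball.mem_nhds hz)).hasDerivAt
    have e2 : HasDerivAt h (deriv h (φ z)) (φ z) :=
      (hhBU.1.1.differentiableAt (isOpen_ball.mem_nhds (hφm z hz))).hasDerivAt
    have e3 : HasDerivAt K (deriv K (h (φ z))) (h (φ z)) :=
      (hK.1.differentiableAt (isOpen_ball.mem_nhds (hhm _ (hφm z hz)))).hasDerivAt
    exact HasDerivAt.comp z e3 (HasDerivAt.comp z e2 e1)
  have hFat : ∀ z ∈ ball (0 : ℂ) 1, HasDerivAt (fun z => (G z - K (h 0)) * A) (deriv G z * A) z := by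
    intro z hz
    have e1 : HasDerivAt G (deriv G z) z := (hGat z hz).differentiableAt.hasDerivAt
    exact (e1.sub_const _).mul_const A
  refine ⟨fun z => (G z - K (h 0)) * A, ⟨?_, ?_⟩, ?_, ?_, ?_, ?_⟩
  · intro z hz
    exact (hFat z hz).differentiableAt.differentiableWithinAt
  · intro x hx y hy hxy
    simp only at hxy
    have h1 : G x = G y := by
      have := mul_right_cancel₀ hA0 hxy
      exact sub_left_injective this
    have h2 : h (φ x) = h (φ y) := hK.2 (hhm _ (hφm x hx)) (hhm _ (hφm y hy)) h1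
    have h3 : φ x = φ y := hhBU.1.2 (hφm x hx) (hφm y hy) h2
    exact hφ.1.2 hx hy h3
  · simp only [hG, hφ0, sub_self, zero_mul]
  · rw [(hFat 0 h0b).deriv, (hGat 0 h0b).deriv, hφ0]
    have h1 : deriv K (h 0) * (deriv h 0 * deriv φ 0) * A = deriv f 0 * deriv φ 0 := by
      rw [hA]
      field_simp
    rw [h1, norm_mul]
    have h2 := Complex.norm_deriv_le_div_of_mapsTo_ball (R₂ := 1) hφ.1.1 (by
      intro w hw
      rw [hφ0, mem_closedBall_zero_iff]
      exact hφ.2 w hw) one_pos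
    rw [div_one] at h2
    exact mul_le_of_le_one_right (norm_nonneg _) h2
  · intro z hz
    have hzb : z ∈ ball (0 : ℂ) 1 := by
      rw [mem_ball_zero_iff]
      linarith
    have h1 : ‖φ z‖ ≤ r := (hφn z hzb).trans hz
    have h2 := hclose K hK (φ z) h1
    have h3 := hφc r' hr'0 hr'1 h1M z (hz.trans (le_max_left _ _))
    have h4 := hLip (φ z) (by rw [mem_closedBall_zero_iff]; linarith) z
      (by rw [mem_closedBall_zero_iff]; linarith)
    have h5 : ‖f (φ z) - f z‖ ≤ η / 2 := h4.trans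
      ((mul_le_mul_of_nonneg_left h3 hΛ.le).trans hsmall)
    calc ‖(G z - K (h 0)) * A - f z‖
        = ‖((K (h (φ z)) - K (h 0)) * A - f (φ z)) + (f (φ z) - f z)‖ := by
          congr 1
          rw [hG]
          ring
      _ ≤ η / 2 + η / 2 := (norm_add_le _ _).trans (add_le_add h2 h5)
      _ = η := by ring
  · intro z hz
    rw [(hFat z hz).deriv, norm_mul, mul_comm]
    have h1 := (hD2 K 1 (h 0) 0 one_pos hK (by linarith) le_rfl zero_le_one).2
    rw [zero_mul, sub_zero, one_pow, one_mul, Complex.ofReal_zero, zero_mul] at h1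
    have h2 : (1 - ‖h 0‖) ^ 4 * ‖deriv K (h 0)‖ ≤ 1 := h1.trans hK1
    have h3 : ‖deriv f 0‖ * (1 - ‖h 0‖) ^ 4 / ‖deriv h 0‖ ≤ ‖A‖ := by
      rw [hA, norm_div, norm_mul, div_le_div_iff₀ hh0' (by positivity)]
      calc ‖deriv f 0‖ * (1 - ‖h 0‖) ^ 4 * (‖deriv K (h 0)‖ * ‖deriv h 0‖)
          = ‖deriv f 0‖ * ‖deriv h 0‖ * ((1 - ‖h 0‖) ^ 4 * ‖deriv K (h 0)‖) := by ring
        _ ≤ ‖deriv f 0‖ * ‖deriv h 0‖ * 1 := by gcongr
        _ = _ := by ring
    exact mul_le_mul_of_nonneg_left h3 (norm_nonneg _)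

end Pool.Agent.Helper47.SR.FDF
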