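import Pool.Agent.Helper5.SR.St1

set_option autoImplicit false

namespace Pool.Agent.Helper47.SR

open Helper5.SR Pool.Agent.Helper51.LT
open Complex MeasureTheory Set Metric Filter Topology
open scoped Real
open Pool.Agent.Helper60.Rel (LH)

lemma isOpen_LH : IsOpen LH := isOpen_lt Complex.continuous_re continuous_const

lemma norm_exp_lt {ζ : ℂ} (θ : ℝ) (h : ζ ∈ LH) : ‖exp (ζ - θ * I)‖ < 1 := by
  have h' : ζ.re < 0 := h
  rw [Complex.norm_exp]
  simpa using h'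

lemma slit_kk {ζ : ℂ} (θ : ℝ) (h : ζ ∈ LH) : 1 - exp (ζ - θ * I) ∈ slitPlane := by
  have h1 := norm_exp_lt θ h
  have h2 := (abs_le.1 (Complex.abs_re_le_norm (exp (ζ - θ * I)))).2
  left
  rw [Complex.sub_re, Complex.one_re]
  linarith

lemma hasDeriv_kk {ι : Type} (Λ : Finset ι) (θ p : ι → ℝ) {ζ : ℂ} (h : ζ ∈ LH) :
    HasDerivAt (kk Λ θ p)
      (1 + ∑ l ∈ Λ, (p l : ℂ) * (exp (ζ - θ l * I) / (1 - exp (ζ - θ l * I)))) ζ := by
  have h1 : ∀ l ∈ Λ, HasDerivAt (fun z => (p l : ℂ) * Complex.log (1 - exp (z - θ l * I)))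
      (-((p l : ℂ) * (exp (ζ - θ l * I) / (1 - exp (ζ - θ l * I))))) ζ := by
    intro l _
    have h2 : HasDerivAt (fun z => 1 - exp (z - θ l * I)) (-(exp (ζ - θ l * I))) ζ := by
      have h3 : HasDerivAt (fun z : ℂ => z - θ l * I) 1 ζ := (hasDerivAt_id ζ).sub_const _
      have h4 := h3.cexp.const_sub 1
      simpa using h4
    have h5 := (h2.clog (slit_kk (θ l) h)).const_mul (p l : ℂ)
    refine h5.congr_deriv ?_
    ring
  have h6 := (hasDerivAt_id ζ).sub (HasDerivAt.fun_sum h1)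
  have h7 : kk Λ θ p = fun z => id z - ∑ l ∈ Λ, (p l : ℂ) * Complex.log (1 - exp (z - θ l * I)) := by
    funext z
    rfl
  rw [h7]
  refine h6.congr_deriv ?_
  rw [Finset.sum_neg_distrib]
  ring

/-- the singular part -/
lemma sing_bound {x : ℂ} (hx0 : x ≠ 0) (hx : ‖x‖ ≤ 1 / 2) :
    ‖exp (-x) / (1 - exp (-x)) - 1 / x‖ ≤ 2 := by
  have h1 : ‖exp x - 1 - x‖ ≤ ‖x‖ ^ 2 := Complex.norm_exp_sub_one_sub_id_le (by linarith)
  have hx1 : 0 < ‖x‖ := norm_pos_iff.2 hx0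
  have h2 : ‖x‖ / 2 ≤ ‖exp x - 1‖ := by
    have h3 : ‖x‖ ≤ ‖exp x - 1‖ + ‖exp x - 1 - x‖ := by
      calc ‖x‖ = ‖(exp x - 1) - (exp x - 1 - x)‖ := by congr 1; ring
        _ ≤ _ := norm_sub_le _ _
    nlinarith
  have h3 : exp x - 1 ≠ 0 := by
    intro h
    rw [h, norm_zero] at h2
    linarith
  have h4 : exp (-x) / (1 - exp (-x)) = 1 / (exp x - 1) := by
    rw [Complex.exp_neg]
    have h5 := Complex.exp_ne_zero x
    have h6 : 1 - (exp x)⁻¹ ≠ 0 := by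
      intro h7
      apply h3
      field_simp at h7
      simpa using h7
    field_simp
  rw [h4]
  have h5 : 1 / (exp x - 1) - 1 / x = -(exp x - 1 - x) / (x * (exp x - 1)) := by
    field_simp
    ring
  rw [h5, norm_div, norm_neg, norm_mul, div_le_iff₀ (by positivity)]
  nlinarith

/-- the regular part -/
noncomputable def AF {ι : Type} (Λ : Finset ι) (θ p : ι → ℝ) (l₀ : ι) (x : ℂ) : ℂ :=
  kk Λ θ p (θ l₀ * I - x) + (p l₀ : ℂ) * Complex.log x

lemma AF_deriv {ι : Type} [DecidableEq ι] (Λ : Finset ι) (θ p : ι → ℝ) (l₀ : ι)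
    (hl : l₀ ∈ Λ) (hp : ∀ l ∈ Λ, 0 < p l)
    (hd : ∀ l ∈ Λ, ∀ l' ∈ Λ, exp (θ l * I) = exp (θ l' * I) → l = l') :
    ∃ M c : ℝ, 1 ≤ M ∧ 0 < c ∧ ∀ x : ℂ, 0 < x.re → ‖x‖ < c →
      HasDerivAt (AF Λ θ p l₀) (-(deriv (kk Λ θ p) (θ l₀ * I - x)) + p l₀ / x) x ∧
      ‖-(deriv (kk Λ θ p) (θ l₀ * I - x)) + p l₀ / x‖ ≤ M := by
  have hp0 := hp l₀ hl
  set F : ℂ → ℂ := fun x => ∑ l ∈ Λ.erase l₀, (p l : ℂ) *
    (exp ((θ l₀ * I - x) - θ l * I) / (1 - exp ((θ l₀ * I - x) - θ l * I))) with hF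
  have hFc : ContinuousAt F 0 := by
    rw [hF]
    apply tendsto_finsetSum
    intro l hl'
    have hne : 1 - exp ((θ l₀ * I - (0 : ℂ)) - θ l * I) ≠ 0 := by
      intro h
      have h1 : exp ((θ l₀ * I - (0 : ℂ)) - θ l * I) = 1 := (sub_eq_zero.1 h).symm
      rw [sub_zero, Complex.exp_sub, div_eq_one_iff_eq (Complex.exp_ne_zero _)] at h1
      exact (Finset.ne_of_mem_erase hl') (hd l₀ hl l (Finset.mem_of_mem_erase hl') h1).symm
    have h2 : ContinuousAt (fun x : ℂ => exp ((θ l₀ * I - x) - θ l * I)) 0 := by fun_prop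
    have h3 : ContinuousAt (fun x : ℂ => 1 - exp ((θ l₀ * I - x) - θ l * I)) 0 := by fun_prop
    exact (continuousAt_const.mul (h2.div h3 hne))
  have hev : ∀ᶠ x in 𝓝 (0 : ℂ), ‖F x‖ < ‖F 0‖ + 1 :=
    (hFc.norm).eventually (gt_mem_nhds (by linarith))
  obtain ⟨ε, hε, hball⟩ := Metric.eventually_nhds_iff.1 hev
  have hM : 1 ≤ 1 + 2 * p l₀ + (‖F 0‖ + 1) := by
    have := norm_nonneg (F 0)
    linarith
  refine ⟨1 + 2 * p l₀ + (‖F 0‖ + 1), min ε (1 / 2), hM, by positivity, ?_⟩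
  intro x hx hxc
  have hxε : ‖x‖ < ε := hxc.trans_le (min_le_left _ _)
  have hxh : ‖x‖ < 1 / 2 := hxc.trans_le (min_le_right _ _)
  have hx0 : x ≠ 0 := by
    rintro rfl
    simp at hx
  have hmem : θ l₀ * I - x ∈ LH := by
    show (θ l₀ * I - x : ℂ).re < 0
    simpa using hx
  have hk := hasDeriv_kk Λ θ p hmem
  constructor
  · have h1 : HasDerivAt (fun y : ℂ => θ l₀ * I - y) (-1) x := by
      simpa using (hasDerivAt_id x).const_sub (θ l₀ * I : ℂ)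
    have h2 := HasDerivAt.comp x (hk.differentiableAt.hasDerivAt) h1
    have h3 : HasDerivAt (fun y : ℂ => (p l₀ : ℂ) * Complex.log y) ((p l₀ : ℂ) * x⁻¹) x :=
      (Complex.hasDerivAt_log (Or.inl hx)).const_mul _
    refine (h2.add h3).congr_deriv ?_
    rw [div_eq_mul_inv]
    ring
  · rw [hk.deriv, ← Finset.add_sum_erase Λ _ hl]
    have h1 := sing_bound hx0 hxh.le
    have h2 : ‖F x‖ < ‖F 0‖ + 1 := hball (by simpa using hxε)
    have h3 : exp (θ l₀ * I - x - θ l₀ * I) = exp (-x) := by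
      congr 1
      ring
    rw [h3]
    have h4 : -(1 + ((p l₀ : ℂ) * (exp (-x) / (1 - exp (-x))) + ∑ l ∈ Λ.erase l₀, (p l : ℂ) *
        (exp ((θ l₀ * I - x) - θ l * I) / (1 - exp ((θ l₀ * I - x) - θ l * I))))) + p l₀ / x =
        -1 - (p l₀ : ℂ) * (exp (-x) / (1 - exp (-x)) - 1 / x) - F x := by
      rw [hF]
      ring
    rw [h4]
    calc ‖-1 - (p l₀ : ℂ) * (exp (-x) / (1 - exp (-x)) - 1 / x) - F x‖
        ≤ ‖(-1 : ℂ)‖ + ‖(p l₀ : ℂ) * (exp (-x) / (1 - exp (-x)) - 1 / x)‖ + ‖F x‖ :=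
          (norm_sub_le _ _).trans (by gcongr; exact norm_sub_le _ _)
      _ ≤ 1 + 2 * p l₀ + (‖F 0‖ + 1) := by
          rw [norm_neg, norm_one, norm_mul, Complex.norm_real, Real.norm_eq_abs, abs_of_pos hp0]
          nlinarith

/-- Lipschitz bound for `A` -/
lemma AF_lip {A A' : ℂ → ℂ} {M c : ℝ}
    (h : ∀ x : ℂ, 0 < x.re → ‖x‖ < c → HasDerivAt A (A' x) x ∧ ‖A' x‖ ≤ M)
    {x y : ℂ} (hx : 0 < x.re) (hxc : ‖x‖ < c) (hy : 0 < y.re) (hyc : ‖y‖ < c) :
    ‖A x - A y‖ ≤ M * ‖x - y‖ := by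
  have hconv : Convex ℝ ({z : ℂ | 0 < z.re} ∩ ball (0 : ℂ) c) :=
    (convex_halfSpace_re_gt 0).inter (convex_ball _ _)
  exact hconv.norm_image_sub_le_of_norm_hasDerivWithin_le
    (fun z hz => (h z hz.1 (by simpa using hz.2)).1.hasDerivWithinAt)
    (fun z hz => (h z hz.1 (by simpa using hz.2)).2)
    ⟨hy, by simpa using hyc⟩ ⟨hx, by simpa using hxc⟩

/-- the fixed point -/
lemma fixpt {A A' : ℂ → ℂ} {M c q : ℝ} (hM : 1 ≤ M) (hq : 0 < q)
    (h : ∀ x : ℂ, 0 < x.re → ‖x‖ < c → HasDerivAt A (A' x) x ∧ ‖A' x‖ ≤ M)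
    {t u : ℝ} (ht : 0 < t) (htu : t ≤ u) (huc : 2 * u < c) (huM : 6 * M * u ≤ q) :
    ∃ y : ℂ, ‖y - u‖ ≤ u / 2 ∧ y = u * exp ((A y - A t) / q) ∧ ‖(A y - A t) / q‖ ≤ 1 / 4 := by
  have hu : 0 < u := ht.trans_le htu
  set s : Set ℂ := closedBall (u : ℂ) (u / 2) with hs
  have hmem : ∀ y ∈ s, 0 < y.re ∧ ‖y‖ < c ∧ ‖y - t‖ ≤ 3 / 2 * u := by
    intro y hy
    have h1 : ‖y - u‖ ≤ u / 2 := by simpa [hs, dist_eq_norm] using hy
    have h2 := (abs_le.1 ((Complex.abs_re_le_norm (y - u)).trans h1)).1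
    rw [Complex.sub_re, Complex.ofReal_re] at h2
    have h3 : ‖y‖ ≤ 3 / 2 * u := by
      calc ‖y‖ = ‖(y - u) + u‖ := by congr 1; ring
        _ ≤ ‖y - u‖ + ‖(u : ℂ)‖ := norm_add_le _ _
        _ ≤ _ := by
          rw [Complex.norm_real, Real.norm_eq_abs, abs_of_pos hu]
          linarith
    refine ⟨by linarith, by linarith, ?_⟩
    calc ‖y - t‖ = ‖(y - u) + ((u - t : ℝ) : ℂ)‖ := by congr 1; push_cast; ring
      _ ≤ ‖y - u‖ + ‖((u - t : ℝ) : ℂ)‖ := norm_add_le _ _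
      _ ≤ _ := by
        rw [Complex.norm_real, Real.norm_eq_abs, abs_of_nonneg (by linarith)]
        linarith
  have htre : 0 < (t : ℂ).re := by simpa using ht
  have htc : ‖(t : ℂ)‖ < c := by
    rw [Complex.norm_real, Real.norm_eq_abs, abs_of_pos ht]
    linarith
  have ha : ∀ y ∈ s, ‖(A y - A t) / q‖ ≤ 1 / 4 := by
    intro y hy
    obtain ⟨h1, h2, h3⟩ := hmem y hy
    have h4 := AF_lip h h1 h2 htre htc
    rw [norm_div, Complex.norm_real, Real.norm_eq_abs, abs_of_pos hq, div_le_iff₀ hq]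
    nlinarith
  set Φ : ℂ → ℂ := fun y => u * exp ((A y - A t) / q) with hΦ
  have hmaps : MapsTo Φ s s := by
    intro y hy
    have h1 := ha y hy
    have h2 : ‖exp ((A y - A t) / q) - 1‖ ≤ 2 * ‖(A y - A t) / q‖ :=
      Complex.norm_exp_sub_one_le (by linarith)
    rw [hs, mem_closedBall, dist_eq_norm, hΦ]
    have h3 : (u : ℂ) * exp ((A y - A t) / q) - u = u * (exp ((A y - A t) / q) - 1) := by ring
    show ‖(u : ℂ) * exp ((A y - A t) / q) - u‖ ≤ u / 2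
    rw [h3, norm_mul, Complex.norm_real, Real.norm_eq_abs, abs_of_pos hu]
    nlinarith
  have hcontr : ContractingWith (1 / 2) (hmaps.restrict Φ s s) := by
    refine ⟨by norm_num [← NNReal.coe_lt_coe], ?_⟩
    refine LipschitzWith.of_dist_le_mul ?_
    rintro ⟨y, hy⟩ ⟨z, hz⟩
    rw [Subtype.dist_eq, Subtype.dist_eq, dist_eq_norm, dist_eq_norm]
    show ‖(u : ℂ) * exp ((A y - A t) / q) - u * exp ((A z - A t) / q)‖ ≤ ((1 / 2 : NNReal) : ℝ) * ‖y - z‖
    obtain ⟨h1, h2, h3⟩ := hmem y hy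
    obtain ⟨h1', h2', h3'⟩ := hmem z hz
    have h4 := AF_lip h h1 h2 h1' h2'
    have h5 : (A y - A t) / q = (A z - A t) / q + (A y - A z) / q := by ring
    have h6 : ‖(A y - A z) / q‖ ≤ M / q * ‖y - z‖ := by
      rw [norm_div, Complex.norm_real, Real.norm_eq_abs, abs_of_pos hq, div_mul_eq_mul_div]
      gcongr
    have h7 : ‖y - z‖ ≤ u := by
      have e1 : ‖y - u‖ ≤ u / 2 := by simpa [hs, dist_eq_norm] using hy
      have e2 : ‖z - u‖ ≤ u / 2 := by simpa [hs, dist_eq_norm] using hz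
      calc ‖y - z‖ = ‖(y - u) - (z - u)‖ := by congr 1; ring
        _ ≤ ‖y - u‖ + ‖z - u‖ := norm_sub_le _ _
        _ ≤ _ := by linarith
    have hMq : M / q * u ≤ 1 / 6 := by
      rw [div_mul_eq_mul_div, div_le_iff₀ hq]
      linarith
    have h8 : ‖(A y - A z) / q‖ ≤ 1 := by
      have : M / q * ‖y - z‖ ≤ M / q * u := by gcongr
      linarith
    have h9 : ‖exp ((A y - A z) / q) - 1‖ ≤ 2 * ‖(A y - A z) / q‖ :=
      Complex.norm_exp_sub_one_le h8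
    have h10 : ‖exp ((A z - A t) / q)‖ ≤ 3 / 2 := by
      have e1 := ha z hz
      have e2 : ‖exp ((A z - A t) / q) - 1‖ ≤ 2 * ‖(A z - A t) / q‖ :=
        Complex.norm_exp_sub_one_le (by linarith)
      calc ‖exp ((A z - A t) / q)‖ = ‖(exp ((A z - A t) / q) - 1) + 1‖ := by congr 1; ring
        _ ≤ ‖exp ((A z - A t) / q) - 1‖ + ‖(1 : ℂ)‖ := norm_add_le _ _
        _ ≤ _ := by rw [norm_one]; linarith
    have h11 : (u : ℂ) * exp ((A y - A t) / q) - u * exp ((A z - A t) / q) =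
        u * (exp ((A z - A t) / q) * (exp ((A y - A z) / q) - 1)) := by
      rw [h5, Complex.exp_add]
      ring
    rw [h11, norm_mul, norm_mul, Complex.norm_real, Real.norm_eq_abs, abs_of_pos hu]
    have h12 : ‖exp ((A z - A t) / q)‖ * ‖exp ((A y - A z) / q) - 1‖ ≤
        3 / 2 * (2 * (M / q * ‖y - z‖)) := by
      apply mul_le_mul h10 (h9.trans (by linarith)) (norm_nonneg _) (by norm_num)
    calc u * (‖exp ((A z - A t) / q)‖ * ‖exp ((A y - A z) / q) - 1‖)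
        ≤ u * (3 / 2 * (2 * (M / q * ‖y - z‖))) := by gcongr
      _ = 3 * (M / q * u) * ‖y - z‖ := by ring
      _ ≤ ((1 / 2 : NNReal) : ℝ) * ‖y - z‖ := by
        have : ((1 / 2 : NNReal) : ℝ) = 1 / 2 := by norm_num
        rw [this]
        gcongr
        linarith
  have hcomp : IsComplete s := isClosed_closedBall.isComplete
  have hus : (u : ℂ) ∈ s := mem_closedBall_self (by linarith)
  obtain ⟨y, hy, hfix, -, -⟩ := hcontr.exists_fixedPoint' hcomp hmaps hus (edist_ne_top _ _)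
  refine ⟨y, by simpa [hs, dist_eq_norm] using hy, hfix.symm, ha y hy⟩

/-- small `u` -/
lemma near {ι : Type} (Λ : Finset ι) (θ p : ι → ℝ) (l₀ : ι)
    (hl : l₀ ∈ Λ) (hp : ∀ l ∈ Λ, 0 < p l)
    (hd : ∀ l ∈ Λ, ∀ l' ∈ Λ, exp (θ l * I) = exp (θ l' * I) → l = l')
    (hinj : InjOn (kk Λ θ p) LH) :
    ∃ c₃ : ℝ, 0 < c₃ ∧ c₃ ≤ 1 ∧ ∀ (τ : ℝ) (P : ℂ → ℂ), 0 ≤ τ → DifferentiableOn ℂ P LH →
      (∀ ζ ∈ LH, (P ζ).re ≤ ζ.re) → (∀ ζ ∈ LH, kk Λ θ p (P ζ) = kk Λ θ p ζ - τ) →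
      ∀ t : ℝ, 0 < t → t * Real.exp (τ / p l₀) ≤ c₃ →
        ‖P (θ l₀ * I - t) - θ l₀ * I‖ ≤ 3 / 2 * (t * Real.exp (τ / p l₀)) ∧
        (P (θ l₀ * I - t)).re ≤ -(t * Real.exp (τ / p l₀) / 2) ∧
        1 / 3 * Real.exp (τ / p l₀) ≤ ‖deriv P (θ l₀ * I - t)‖ ∧
        ‖deriv P (θ l₀ * I - t)‖ ≤ 3 * Real.exp (τ / p l₀) := by
  classical
  obtain ⟨M, c, hM, hc, hA⟩ := AF_deriv Λ θ p l₀ hl hp hd
  have hp0 := hp l₀ hl
  refine ⟨min 1 (min (c / 3) (p l₀ / (6 * M))), by positivity, min_le_left _ _, ?_⟩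
  intro τ P hτ hPd hPre hPk t ht htu
  set R := Real.exp (τ / p l₀) with hR
  have hR1 : 1 ≤ R := Real.one_le_exp (by positivity)
  set u := t * R with hu
  have hu0 : 0 < u := by positivity
  have htu' : t ≤ u := by nlinarith
  have huc : 2 * u < c := by
    have := htu.trans ((min_le_right _ _).trans (min_le_left _ _))
    linarith
  have huM : 6 * M * u ≤ p l₀ := by
    have h1 := htu.trans ((min_le_right _ _).trans (min_le_right _ _))
    rw [le_div_iff₀ (by positivity)] at h1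
    linarith
  obtain ⟨y, hy1, hy2, hy3⟩ := fixpt (A := AF Λ θ p l₀) hM hp0 hA ht htu' huc huM
  have hyre : u / 2 ≤ y.re := by
    have h2 := (abs_le.1 ((Complex.abs_re_le_norm (y - u)).trans hy1)).1
    rw [Complex.sub_re, Complex.ofReal_re] at h2
    linarith
  have hyn : ‖y‖ ≤ 3 / 2 * u := by
    calc ‖y‖ = ‖(y - u) + u‖ := by congr 1; ring
      _ ≤ ‖y - u‖ + ‖(u : ℂ)‖ := norm_add_le _ _
      _ ≤ _ := by
        rw [Complex.norm_real, Real.norm_eq_abs, abs_of_pos hu0]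
        linarith
  have hyn2 : u / 2 ≤ ‖y‖ := hyre.trans ((le_abs_self _).trans (Complex.abs_re_le_norm y))
  have hy0 : 0 < ‖y‖ := by linarith
  have hyne : y ≠ 0 := norm_pos_iff.1 hy0
  -- logarithms
  have hlogy : Complex.log y = Real.log u + (AF Λ θ p l₀ y - AF Λ θ p l₀ t) / p l₀ := by
    set a := (AF Λ θ p l₀ y - AF Λ θ p l₀ t) / p l₀ with ha
    have him := abs_le.1 ((Complex.abs_im_le_norm a).trans hy3)
    have hpi := Real.pi_gt_three
    rw [hy2, Complex.log_ofReal_mul hu0 (Complex.exp_ne_zero _), Complex.log_exp (by linarith)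
      (by linarith)]
  have hlogt : Complex.log (t : ℂ) = Real.log t := (Complex.ofReal_log ht.le).symm
  have hlogu : Real.log u = Real.log t + τ / p l₀ := by
    rw [hu, Real.log_mul ht.ne' (by positivity), hR, Real.log_exp]
  have hζ : (θ l₀ * I - t : ℂ) ∈ LH := by
    show (θ l₀ * I - t : ℂ).re < 0
    simpa using ht
  have hη : (θ l₀ * I - y : ℂ) ∈ LH := by
    show (θ l₀ * I - y : ℂ).re < 0
    simp only [Complex.sub_re, Complex.mul_re, Complex.ofReal_re, Complex.I_re, mul_zero,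
      Complex.ofReal_im, Complex.I_im, mul_one, sub_self, zero_sub]
    linarith
  have hPη : P (θ l₀ * I - t) = θ l₀ * I - y := by
    apply hinj ((hPre _ hζ).trans_lt hζ) hη
    rw [hPk _ hζ]
    have e1 : kk Λ θ p (θ l₀ * I - t) = AF Λ θ p l₀ t - p l₀ * Complex.log t := by
      rw [AF]
      ring
    have e2 : kk Λ θ p (θ l₀ * I - y) = AF Λ θ p l₀ y - p l₀ * Complex.log y := by
      rw [AF]
      ring
    rw [e1, e2, hlogy, hlogt, hlogu]
    have hpc : (p l₀ : ℂ) ≠ 0 := by exact_mod_cast hp0.ne'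
    push_cast
    field_simp
    ring
  -- derivative
  have hPη' : P (θ l₀ * I - t) ∈ LH := (hPre _ hζ).trans_lt hζ
  have hder : deriv (kk Λ θ p) (θ l₀ * I - y) * deriv P (θ l₀ * I - t) =
      deriv (kk Λ θ p) (θ l₀ * I - t) := by
    have h1 : HasDerivAt P (deriv P (θ l₀ * I - t)) (θ l₀ * I - t) :=
      ((hPd _ hζ).differentiableAt (isOpen_LH.mem_nhds hζ)).hasDerivAt
    have h2 := (hasDeriv_kk Λ θ p hPη').differentiableAt.hasDerivAt
    have h3 := HasDerivAt.comp (θ l₀ * I - t : ℂ) h2 h1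
    have h4 : (kk Λ θ p ∘ P) =ᶠ[𝓝 (θ l₀ * I - t : ℂ)] fun ζ => kk Λ θ p ζ - τ := by
      filter_upwards [isOpen_LH.mem_nhds hζ] with ζ hζ'
      exact hPk ζ hζ'
    have h5 := h4.deriv_eq
    rw [h3.deriv, deriv_sub_const, hPη] at h5
    exact h5
  have hAt := (hA (t : ℂ) (by simpa using ht) (by
    rw [Complex.norm_real, Real.norm_eq_abs, abs_of_pos ht]; linarith)).2
  have hAy := (hA y (by linarith) (by linarith)).2
  have hg1 : ‖deriv (kk Λ θ p) (θ l₀ * I - t)‖ * t ≤ p l₀ + M * t ∧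
      p l₀ - M * t ≤ ‖deriv (kk Λ θ p) (θ l₀ * I - t)‖ * t := by
    set G := deriv (kk Λ θ p) (θ l₀ * I - t)
    have hn : ‖(p l₀ / t : ℂ)‖ = p l₀ / t := by
      rw [norm_div, Complex.norm_real, Complex.norm_real, Real.norm_eq_abs, Real.norm_eq_abs,
        abs_of_pos hp0, abs_of_pos ht]
    have h1 : ‖G‖ ≤ p l₀ / t + M := by
      calc ‖G‖ = ‖(p l₀ / t : ℂ) - (-G + p l₀ / t)‖ := by congr 1; ring
        _ ≤ ‖(p l₀ / t : ℂ)‖ + ‖-G + p l₀ / t‖ := norm_sub_le _ _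
        _ ≤ _ := by rw [hn]; linarith
    have h2 : p l₀ / t ≤ ‖G‖ + M := by
      calc p l₀ / t = ‖(p l₀ / t : ℂ)‖ := hn.symm
        _ = ‖G + (-G + p l₀ / t)‖ := by congr 1; ring
        _ ≤ ‖G‖ + ‖-G + p l₀ / t‖ := norm_add_le _ _
        _ ≤ _ := by linarith
    have h3 : p l₀ / t * t = p l₀ := div_mul_cancel₀ _ ht.ne'
    constructor <;> nlinarith
  have hg2 : ‖deriv (kk Λ θ p) (θ l₀ * I - y)‖ * ‖y‖ ≤ p l₀ + M * ‖y‖ ∧
      p l₀ - M * ‖y‖ ≤ ‖deriv (kk Λ θ p) (θ l₀ * I - y)‖ * ‖y‖ := by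
    set G := deriv (kk Λ θ p) (θ l₀ * I - y)
    have hn : ‖(p l₀ / y : ℂ)‖ = p l₀ / ‖y‖ := by
      rw [norm_div, Complex.norm_real, Real.norm_eq_abs, abs_of_pos hp0]
    have h1 : ‖G‖ ≤ p l₀ / ‖y‖ + M := by
      calc ‖G‖ = ‖(p l₀ / y : ℂ) - (-G + p l₀ / y)‖ := by congr 1; ring
        _ ≤ ‖(p l₀ / y : ℂ)‖ + ‖-G + p l₀ / y‖ := norm_sub_le _ _
        _ ≤ _ := by rw [hn]; linarith
    have h2 : p l₀ / ‖y‖ ≤ ‖G‖ + M := by
      calc p l₀ / ‖y‖ = ‖(p l₀ / y : ℂ)‖ := hn.symm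
        _ = ‖G + (-G + p l₀ / y)‖ := by congr 1; ring
        _ ≤ ‖G‖ + ‖-G + p l₀ / y‖ := norm_add_le _ _
        _ ≤ _ := by linarith
    have h3 : p l₀ / ‖y‖ * ‖y‖ = p l₀ := div_mul_cancel₀ _ hy0.ne'
    constructor <;> nlinarith
  set g1 := ‖deriv (kk Λ θ p) (θ l₀ * I - t)‖
  set g2 := ‖deriv (kk Λ θ p) (θ l₀ * I - y)‖
  set D := ‖deriv P (θ l₀ * I - t)‖ with hD
  have hgD : g2 * D = g1 := by
    have h1 := congrArg norm hder
    rw [norm_mul] at h1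
    exact h1
  have hMt : M * t ≤ p l₀ / 6 := by nlinarith
  have hMy : M * ‖y‖ ≤ p l₀ / 4 := by nlinarith
  have hg20 : 0 ≤ g2 := norm_nonneg _
  have hg10 : 0 ≤ g1 := norm_nonneg _
  have hD0 : 0 ≤ D := norm_nonneg _
  refine ⟨?_, ?_, ?_, ?_⟩
  · rw [hPη]
    have : (θ l₀ * I - y - θ l₀ * I : ℂ) = -y := by ring
    rw [this, norm_neg]
    exact hyn
  · rw [hPη]
    simp only [Complex.sub_re, Complex.mul_re, Complex.ofReal_re, Complex.I_re, mul_zero,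
      Complex.ofReal_im, Complex.I_im, mul_one, sub_self, zero_sub]
    linarith
  · -- `g2 u ≤ 5/2 p₀`
    have e1 : g2 * u ≤ 5 / 2 * p l₀ := by nlinarith [hg2.1]
    have e2 : 5 / 6 * p l₀ ≤ g1 * t := by linarith [hg1.2]
    have e3 : 5 / 6 * p l₀ * R ≤ D * (5 / 2 * p l₀) := by
      calc 5 / 6 * p l₀ * R ≤ g1 * t * R := by gcongr
        _ = D * (g2 * u) := by rw [← hgD, hu]; ring
        _ ≤ _ := by gcongr
    have e4 : p l₀ * (5 / 6 * R) ≤ p l₀ * (5 / 2 * D) := by linarith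
    have e5 := le_of_mul_le_mul_left e4 hp0
    linarith
  · have e1 : p l₀ / 2 ≤ g2 * u := by nlinarith [hg2.2]
    have e2 : g1 * t ≤ 7 / 6 * p l₀ := by linarith [hg1.1]
    have e3 : D * (p l₀ / 2) ≤ 7 / 6 * p l₀ * R := by
      calc D * (p l₀ / 2) ≤ D * (g2 * u) := by gcongr
        _ = g1 * t * R := by rw [← hgD, hu]; ring
        _ ≤ _ := by gcongr
    have e4 : p l₀ * (1 / 2 * D) ≤ p l₀ * (7 / 6 * R) := by linarith
    have e5 := le_of_mul_le_mul_left e4 hp0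
    linarith

/-- chain of discs -/
lemma chain (hD3 : StD3) {P : ℂ → ℂ} (hP : Un P LH) (θ : ℝ) (n : ℕ) :
    ∀ t' t : ℝ, 0 < t' → t' ≤ t → t ≤ (3 / 2 : ℝ) ^ n * t' →
      ‖deriv P (θ * I - t)‖ ≤ 16 ^ n * ‖deriv P (θ * I - t')‖ ∧
      ‖deriv P (θ * I - t')‖ ≤ 16 ^ n * ‖deriv P (θ * I - t)‖ := by
  induction n with
  | zero =>
    intro t' t _ h1 h2
    have : t = t' := by
      rw [pow_zero, one_mul] at h2
      exact le_antisymm h2 h1
    subst this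
    simp
  | succ n ih =>
    intro t' t ht' h1 h2
    set s := max t' (t * (2 / 3)) with hs
    have hs1 : t' ≤ s := le_max_left _ _
    have hs2 : t * (2 / 3) ≤ s := le_max_right _ _
    have hs0 : 0 < s := ht'.trans_le hs1
    have hst : s ≤ t := max_le h1 (by nlinarith)
    have hpow : (1 : ℝ) ≤ (3 / 2 : ℝ) ^ n := one_le_pow₀ (by norm_num)
    have hs3 : s ≤ (3 / 2 : ℝ) ^ n * t' := by
      apply max_le
      · nlinarith
      · rw [pow_succ] at h2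
        nlinarith
    obtain ⟨i1, i2⟩ := ih t' s ht' hs1 hs3
    have hball : ball (θ * I - s : ℂ) s ⊆ LH := by
      intro z hz
      rw [mem_ball, dist_eq_norm] at hz
      have h3 := (abs_lt.1 ((Complex.abs_re_le_norm _).trans_lt hz)).2
      show z.re < 0
      simp only [Complex.sub_re, Complex.mul_re, Complex.ofReal_re, Complex.I_re, mul_zero,
        Complex.ofReal_im, Complex.I_im, mul_one, sub_self, zero_sub] at h3
      linarith
    have hU : Un P (ball (θ * I - s : ℂ) s) := ⟨hP.1.mono hball, hP.2.mono hball⟩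
    have hnorm : ‖(θ * I - t : ℂ) - (θ * I - s)‖ = t - s := by
      have : (θ * I - t : ℂ) - (θ * I - s) = ((s - t : ℝ) : ℂ) := by
        push_cast
        ring
      rw [this, Complex.norm_real, Real.norm_eq_abs, abs_sub_comm, abs_of_nonneg (by linarith)]
    obtain ⟨j1, j2⟩ := hD3 P (θ * I - s) (θ * I - t) s hs0 hU (by rw [hnorm]; linarith)
    rw [hnorm] at j1 j2
    have hh : s / 2 ≤ s - (t - s) := by linarith
    have hh4 : (s / 2) ^ 4 ≤ (s - (t - s)) ^ 4 := pow_le_pow_left₀ (by linarith) hh 4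
    have hs4 : 0 < s ^ 4 := by positivity
    have k1 : ‖deriv P (θ * I - t)‖ ≤ 16 * ‖deriv P (θ * I - s)‖ := by
      have e1 : (s / 2) ^ 4 * ‖deriv P (θ * I - t)‖ ≤ s ^ 4 * ‖deriv P (θ * I - s)‖ :=
        (mul_le_mul_of_nonneg_right hh4 (norm_nonneg _)).trans j1
      have e2 : s ^ 4 * ‖deriv P (θ * I - t)‖ ≤ s ^ 4 * (16 * ‖deriv P (θ * I - s)‖) := by
        have : (s / 2) ^ 4 = s ^ 4 / 16 := by ring
        rw [this] at e1
        linarith
      exact le_of_mul_le_mul_left e2 hs4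
    have k2 : ‖deriv P (θ * I - s)‖ ≤ 16 * ‖deriv P (θ * I - t)‖ := by
      have e1 : (s / 2) ^ 4 * ‖deriv P (θ * I - s)‖ ≤ s ^ 4 * ‖deriv P (θ * I - t)‖ :=
        (mul_le_mul_of_nonneg_right hh4 (norm_nonneg _)).trans j2
      have e2 : s ^ 4 * ‖deriv P (θ * I - s)‖ ≤ s ^ 4 * (16 * ‖deriv P (θ * I - t)‖) := by
        have : (s / 2) ^ 4 = s ^ 4 / 16 := by ring
        rw [this] at e1
        linarith
      exact le_of_mul_le_mul_left e2 hs4
    have hp16 : (0 : ℝ) ≤ 16 ^ n := by positivity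
    rw [pow_succ]
    constructor
    · calc ‖deriv P (θ * I - t)‖ ≤ 16 * ‖deriv P (θ * I - s)‖ := k1
        _ ≤ 16 * (16 ^ n * ‖deriv P (θ * I - t')‖) := by gcongr
        _ = _ := by ring
    · calc ‖deriv P (θ * I - t')‖ ≤ 16 ^ n * ‖deriv P (θ * I - s)‖ := i2
        _ ≤ 16 ^ n * (16 * ‖deriv P (θ * I - t)‖) := by gcongr
        _ = _ := by ring

/-- Schwarz-Pick in the half plane (with a factor two to spare) -/
lemma schwarz_half {P : ℂ → ℂ} (hPd : DifferentiableOn ℂ P LH)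
    (hPm : ∀ ζ ∈ LH, P ζ ∈ LH) {ζ : ℂ} {t : ℝ} (ht : 0 < t) (hζ : ζ.re = -t) :
    t * ‖deriv P ζ‖ ≤ 2 * -(P ζ).re := by
  have hζL : ζ ∈ LH := by
    show ζ.re < 0
    linarith
  have hball : ball ζ t ⊆ LH := by
    intro z hz
    rw [mem_ball, dist_eq_norm] at hz
    have h3 := (abs_lt.1 ((Complex.abs_re_le_norm _).trans_lt hz)).2
    show z.re < 0
    rw [Complex.sub_re] at h3
    linarith
  set a := P ζ with ha
  have haL : a.re < 0 := hPm ζ hζL
  set b := (starRingEnd ℂ) a with hb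
  have hden : ∀ w : ℂ, w ∈ LH → w + b ≠ 0 := by
    intro w hw h
    have h1 : (w + b).re = 0 := by rw [h]; rfl
    rw [Complex.add_re, hb, Complex.conj_re] at h1
    have : w.re < 0 := hw
    linarith
  have hlt : ∀ w : ℂ, w ∈ LH → ‖(w - a) / (w + b)‖ < 1 := by
    intro w hw
    have hw' : w.re < 0 := hw
    rw [norm_div, div_lt_one (norm_pos_iff.2 (hden w hw))]
    apply lt_of_pow_lt_pow_left₀ 2 (norm_nonneg _)
    rw [← Complex.normSq_eq_norm_sq, ← Complex.normSq_eq_norm_sq, Complex.normSq_apply,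
      Complex.normSq_apply]
    simp only [Complex.sub_re, Complex.sub_im, Complex.add_re, Complex.add_im, hb,
      Complex.conj_re, Complex.conj_im]
    nlinarith
  set Q : ℂ → ℂ := fun z => (P z - a) / (P z + b) with hQ
  have hQd : DifferentiableOn ℂ Q (ball ζ t) := by
    apply ((hPd.mono hball).sub_const a).div ((hPd.mono hball).add_const b)
    intro z hz
    exact hden _ (hPm z (hball hz))
  have hQζ : Q ζ = 0 := by
    show (P ζ - a) / (P ζ + b) = 0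
    rw [← ha]
    simp
  have hQm : MapsTo Q (ball ζ t) (closedBall (Q ζ) 1) := by
    intro z hz
    rw [hQζ, mem_closedBall_zero_iff]
    exact (hlt _ (hPm z (hball hz))).le
  have h1 := Complex.norm_deriv_le_div_of_mapsTo_ball hQd hQm ht
  have hPζ : HasDerivAt P (deriv P ζ) ζ :=
    ((hPd _ hζL).differentiableAt (isOpen_LH.mem_nhds hζL)).hasDerivAt
  have h2 : HasDerivAt Q ((deriv P ζ * (P ζ + b) - (P ζ - a) * deriv P ζ) / (P ζ + b) ^ 2) ζ :=
    (hPζ.sub_const a).div (hPζ.add_const b) (hden _ (hPm ζ hζL))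
  rw [h2.deriv, ← ha, sub_self, zero_mul, sub_zero, sq,
    mul_div_mul_right _ _ (hden a (hPm ζ hζL)), norm_div, div_le_div_iff₀
      (norm_pos_iff.2 (hden a (hPm ζ hζL))) ht, one_mul] at h1
  have h3 : a + b = ((2 * a.re : ℝ) : ℂ) := by
    rw [hb, Complex.add_conj]
  rw [h3, Complex.norm_real, Real.norm_eq_abs, abs_of_neg (by linarith)] at h1
  linarith

/-- one atom -/
lemma one_atom (hD3 : StD3) {ι : Type} (Λ : Finset ι) (θ p : ι → ℝ) (l₀ : ι)
    (hl : l₀ ∈ Λ) (hp : ∀ l ∈ Λ, 0 < p l)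
    (hd : ∀ l ∈ Λ, ∀ l' ∈ Λ, exp (θ l * I) = exp (θ l' * I) → l = l')
    (hinj : InjOn (kk Λ θ p) LH) :
    ∃ K : ℝ, 1 ≤ K ∧ ∀ (τ : ℝ) (P : ℂ → ℂ), 0 ≤ τ → DifferentiableOn ℂ P LH → InjOn P LH →
      (∀ ζ ∈ LH, (P ζ).re ≤ ζ.re) → (∀ ζ ∈ LH, kk Λ θ p (P ζ) = kk Λ θ p ζ - τ) →
      ∀ t : ℝ, 0 < t → t * Real.exp (τ / p l₀) ≤ 1 →
        ‖P (θ l₀ * I - t) - θ l₀ * I‖ ≤ K * (t * Real.exp (τ / p l₀)) ∧
        (P (θ l₀ * I - t)).re ≤ -(1 / K * (t * Real.exp (τ / p l₀))) ∧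
        1 / K * Real.exp (τ / p l₀) ≤ ‖deriv P (θ l₀ * I - t)‖ := by
  obtain ⟨c₃, hc0, hc1, hnear⟩ := near Λ θ p l₀ hl hp hd hinj
  obtain ⟨n, hn⟩ := pow_unbounded_of_one_lt (1 / c₃) (show (1 : ℝ) < 3 / 2 by norm_num)
  have hpow : (1 : ℝ) ≤ 16 ^ n := one_le_pow₀ (by norm_num)
  refine ⟨6 * 16 ^ n, by linarith, ?_⟩
  intro τ P hτ hPd hPi hPre hPk t ht htu
  set R := Real.exp (τ / p l₀) with hR
  have hR1 : 1 ≤ R := Real.one_le_exp (by have := hp l₀ hl; positivity)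
  set u := t * R with hu
  have hu0 : 0 < u := by positivity
  have hK3 : 1 / (6 * 16 ^ n : ℝ) ≤ 1 / 6 := by
    apply one_div_le_one_div_of_le (by norm_num)
    linarith
  rcases le_total u c₃ with hle | hle
  · obtain ⟨h1, h2, h3, -⟩ := hnear τ P hτ hPd hPre hPk t ht hle
    refine ⟨h1.trans ?_, h2.trans ?_, le_trans ?_ h3⟩
    · gcongr
      linarith
    · nlinarith
    · gcongr
      linarith
  · set t' := c₃ / R with ht'
    have hR0 : 0 < R := by linarith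
    have ht'0 : 0 < t' := by positivity
    have ht'R : t' * R = c₃ := div_mul_cancel₀ _ hR0.ne'
    have htt : t' ≤ t := by
      rw [ht', div_le_iff₀ hR0]
      exact hle
    have hbig : t ≤ (3 / 2 : ℝ) ^ n * t' := by
      have h1 : t ≤ 1 / R := by
        rw [le_div_iff₀ hR0]
        exact htu
      have h2 : 1 / R = 1 / c₃ * t' := by
        rw [ht']
        field_simp
      calc t ≤ 1 / c₃ * t' := by rw [← h2]; exact h1
        _ ≤ _ := by gcongr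
    obtain ⟨h1, h2, h3, h4⟩ := hnear τ P hτ hPd hPre hPk t' ht'0 (by rw [← hR, ht'R])
    rw [← hR] at h1 h2 h3 h4
    rw [ht'R] at h1
    have hUn : Un P LH := ⟨hPd, hPi⟩
    obtain ⟨c1, c2⟩ := chain hD3 hUn (θ l₀) n t' t ht'0 htt hbig
    have hlow : 1 / (3 * 16 ^ n : ℝ) * R ≤ ‖deriv P (θ l₀ * I - t)‖ := by
      rw [div_mul_eq_mul_div, one_mul, div_le_iff₀ (by positivity)]
      nlinarith
    refine ⟨?_, ?_, ?_⟩
    · -- mean value inequality
      have hmv : ‖P (θ l₀ * I - t) - P (θ l₀ * I - t')‖ ≤ (16 ^ n * (3 * R)) * ‖t - t'‖ := by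
        have hder : ∀ s ∈ Icc t' t, HasDerivWithinAt (fun s : ℝ => P (θ l₀ * I - s))
            (-(deriv P (θ l₀ * I - s))) (Icc t' t) s := by
          intro s hs
          have hsL : (θ l₀ * I - s : ℂ) ∈ LH := by
            show (θ l₀ * I - s : ℂ).re < 0
            have : 0 < s := ht'0.trans_le hs.1
            simpa using this
          have e1 : HasDerivAt P (deriv P (θ l₀ * I - s)) (θ l₀ * I - s) :=
            ((hPd _ hsL).differentiableAt (isOpen_LH.mem_nhds hsL)).hasDerivAt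
          have e2 : HasDerivAt (fun w : ℂ => θ l₀ * I - w) (-1) (s : ℂ) := by
            simpa using (hasDerivAt_id (s : ℂ)).const_sub (θ l₀ * I : ℂ)
          have e3 := (HasDerivAt.comp (s : ℂ) e1 e2).comp_ofReal
          have e4 : HasDerivAt (fun s : ℝ => P (θ l₀ * I - s)) (-(deriv P (θ l₀ * I - s))) s := by
            refine e3.congr_deriv ?_
            ring
          exact e4.hasDerivWithinAt
        exact (convex_Icc t' t).norm_image_sub_le_of_norm_hasDerivWithin_le hder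
          (fun s hs => by
            rw [norm_neg]
            have e5 := (chain hD3 hUn (θ l₀) n t' s ht'0 hs.1 (hs.2.trans hbig)).1
            exact e5.trans (by gcongr)) ⟨le_rfl, htt⟩ ⟨htt, le_rfl⟩
      rw [Real.norm_eq_abs, abs_of_nonneg (by linarith)] at hmv
      calc ‖P (θ l₀ * I - t) - θ l₀ * I‖
          = ‖(P (θ l₀ * I - t) - P (θ l₀ * I - t')) + (P (θ l₀ * I - t') - θ l₀ * I)‖ := by
            congr 1; ring
        _ ≤ ‖P (θ l₀ * I - t) - P (θ l₀ * I - t')‖ + ‖P (θ l₀ * I - t') - θ l₀ * I‖ :=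
            norm_add_le _ _
        _ ≤ (16 ^ n * (3 * R)) * (t - t') + 3 / 2 * c₃ := add_le_add hmv h1
        _ ≤ (16 ^ n * (3 * R)) * t + 3 / 2 * u := by gcongr; linarith
        _ = 3 * 16 ^ n * u + 3 / 2 * u := by rw [hu]; ring
        _ ≤ 6 * 16 ^ n * u := by nlinarith
    · have hPm : ∀ ζ ∈ LH, P ζ ∈ LH := fun ζ hζ => (hPre ζ hζ).trans_lt hζ
      have h5 := schwarz_half hPd hPm ht (ζ := θ l₀ * I - t) (by simp)
      have h6 : t * (1 / (3 * 16 ^ n : ℝ) * R) ≤ 2 * -(P (θ l₀ * I - t)).re :=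
        (mul_le_mul_of_nonneg_left hlow ht.le).trans h5
      have h7 : 1 / (6 * 16 ^ n : ℝ) * u = t * (1 / (3 * 16 ^ n : ℝ) * R) / 2 := by
        rw [hu]
        field_simp
        ring
      rw [h7]
      linarith
    · refine le_trans ?_ hlow
      gcongr
      norm_num

theorem hKK3 (hKK1 : StKK1) (hD3 : StD3) : StKK3 := by
  intro ι Λ θ p hp hsum hd
  obtain ⟨-, hinj, -, -, -⟩ := hKK1 ι Λ θ p hp hsum
  have h := fun l (hl : l ∈ Λ) => one_atom hD3 Λ θ p l hl hp hd hinj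
  choose! K hK1 hK using h
  set S := 1 + ∑ l ∈ Λ, |K l| with hS
  have hS1 : 1 ≤ S := by
    have : 0 ≤ ∑ l ∈ Λ, |K l| := Finset.sum_nonneg fun _ _ => abs_nonneg _
    linarith
  have hKS : ∀ l ∈ Λ, K l ≤ S := by
    intro l hl
    have := Finset.single_le_sum (f := fun l => |K l|) (fun _ _ => abs_nonneg _) hl
    have h2 := le_abs_self (K l)
    linarith
  refine ⟨S, 1 / S, by linarith, by positivity, ?_⟩
  intro τ P hτ hPd hPi hPre hPk l hl t ht _ htu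
  obtain ⟨h1, h2, h3⟩ := hK l hl τ P hτ hPd hPi hPre hPk t ht htu
  have hKl := hKS l hl
  have hKl1 := hK1 l hl
  have hinv : 1 / S ≤ 1 / K l := one_div_le_one_div_of_le (by linarith) hKl
  have hu0 : 0 < t * Real.exp (τ / p l) := by positivity
  refine ⟨h1.trans (by gcongr), h2.trans ?_, le_trans (by gcongr) h3⟩
  have : 1 / S * (t * Real.exp (τ / p l)) ≤ 1 / K l * (t * Real.exp (τ / p l)) := by gcongr
  linarith

end Pool.Agent.Helper47.SR
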