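import Pool.Agent.Helper5.SR.St2
import Pool.Agent.Helper60.Rel.Log

set_option autoImplicit false

namespace Pool.Agent.Helper47.SR.TL

open Helper5.SR Pool.Agent.Helper51.LT
open Complex MeasureTheory Set Metric Filter Topology
open scoped Real
open Pool.Agent.Helper60.Rel (LH)

lemma isOpen_LH : IsOpen LH := isOpen_lt Complex.continuous_re continuous_const

lemma cauchy {f : ℂ → ℂ} {a z : ℂ} {R r M : ℝ} (hf : DifferentiableOn ℂ f (ball a R))
    (hb : ∀ z ∈ ball a R, ‖f z‖ ≤ M) (hr : 0 < r) (hz : dist z a + r < R) :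
    ‖deriv f z‖ ≤ M / r := by
  have hsub : closedBall z r ⊆ ball a R := by
    intro w hw
    rw [mem_closedBall] at hw
    rw [mem_ball]
    linarith [dist_triangle w z a]
  exact Complex.norm_deriv_le_of_forall_mem_sphere_norm_le hr (hf.diffContOnCl_ball hsub)
    fun w hw => hb w (hsub (sphere_subset_closedBall hw))

/-- Schwarz-Pick for maps of a disc to the left half plane -/
lemma schwarz_disc {f : ℂ → ℂ} {ζ : ℂ} {t : ℝ} (ht : 0 < t) (hf : DifferentiableOn ℂ f (ball ζ t))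
    (hm : ∀ z ∈ ball ζ t, (f z).re < 0) : t * ‖deriv f ζ‖ ≤ 2 * -(f ζ).re := by
  have hζL : ζ ∈ ball ζ t := mem_ball_self ht
  set a := f ζ with ha
  have haL : a.re < 0 := hm ζ hζL
  set b := (starRingEnd ℂ) a with hb
  have hden : ∀ w : ℂ, w.re < 0 → w + b ≠ 0 := by
    intro w hw h
    have h1 : (w + b).re = 0 := by rw [h]; rfl
    rw [Complex.add_re, hb, Complex.conj_re] at h1
    linarith
  have hlt : ∀ w : ℂ, w.re < 0 → ‖(w - a) / (w + b)‖ < 1 := by
    intro w hw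
    rw [norm_div, div_lt_one (norm_pos_iff.2 (hden w hw))]
    apply lt_of_pow_lt_pow_left₀ 2 (norm_nonneg _)
    rw [← Complex.normSq_eq_norm_sq, ← Complex.normSq_eq_norm_sq, Complex.normSq_apply,
      Complex.normSq_apply]
    simp only [Complex.sub_re, Complex.sub_im, Complex.add_re, Complex.add_im, hb,
      Complex.conj_re, Complex.conj_im]
    nlinarith
  set Q : ℂ → ℂ := fun z => (f z - a) / (f z + b) with hQ
  have hQd : DifferentiableOn ℂ Q (ball ζ t) := by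
    apply (hf.sub_const a).div (hf.add_const b)
    intro z hz
    exact hden _ (hm z hz)
  have hQζ : Q ζ = 0 := by
    show (f ζ - a) / (f ζ + b) = 0
    rw [← ha]
    simp
  have hQm : MapsTo Q (ball ζ t) (closedBall (Q ζ) 1) := by
    intro z hz
    rw [hQζ, mem_closedBall_zero_iff]
    exact (hlt _ (hm z hz)).le
  have h1 := Complex.norm_deriv_le_div_of_mapsTo_ball hQd hQm ht
  have hPζ : HasDerivAt f (deriv f ζ) ζ :=
    ((hf _ hζL).differentiableAt (isOpen_ball.mem_nhds hζL)).hasDerivAt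
  have h2 : HasDerivAt Q ((deriv f ζ * (f ζ + b) - (f ζ - a) * deriv f ζ) / (f ζ + b) ^ 2) ζ :=
    (hPζ.sub_const a).div (hPζ.add_const b) (hden _ (hm ζ hζL))
  rw [h2.deriv, ← ha, sub_self, zero_mul, sub_zero, sq,
    mul_div_mul_right _ _ (hden a haL), norm_div, div_le_div_iff₀
      (norm_pos_iff.2 (hden a haL)) ht, one_mul] at h1
  have h3 : a + b = ((2 * a.re : ℝ) : ℂ) := by
    rw [hb, Complex.add_conj]
  rw [h3, Complex.norm_real, Real.norm_eq_abs, abs_of_neg (by linarith)] at h1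
  linarith

/-- the local part: `Φ₀` near `0` -/
lemma local_part {F : ℂ → ℂ} (hF : DifferentiableOn ℂ F (ball 0 (1 / 64000)))
    (hb : ∀ z ∈ ball (0 : ℂ) (1 / 64000), ‖F z‖ ≤ 2) (h0 : F 0 = 0)
    (hre : ∀ z ∈ ball (0 : ℂ) (1 / 64000), z.re < 0 → (F z).re ≤ z.re) :
    ∃ κ : ℝ, 1 ≤ κ ∧ κ ≤ 10 ^ 11 ∧ ∀ z : ℂ, ‖z‖ ≤ 1 / 10 ^ 11 →
      ‖F z - κ * z‖ ≤ 10 ^ 11 * ‖z‖ ^ 2 ∧ ‖deriv F z - κ‖ ≤ 10 ^ 11 * ‖z‖ := by
  set k : ℂ := deriv F 0 with hk
  have hb1 : ∀ z ∈ ball (0 : ℂ) (1 / 128000), ‖deriv F z‖ ≤ 256000 := by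
    intro z hz
    rw [mem_ball] at hz
    have := cauchy (r := 1 / 128000) hF hb (by norm_num) (z := z) (by linarith)
    norm_num at this
    exact this
  have hF' : DifferentiableOn ℂ (deriv F) (ball 0 (1 / 128000)) :=
    (hF.deriv isOpen_ball).mono (ball_subset_ball (by norm_num))
  have hb2 : ∀ z ∈ ball (0 : ℂ) (1 / 256000), ‖deriv (deriv F) z‖ ≤ 65536000000 := by
    intro z hz
    rw [mem_ball] at hz
    have := cauchy (r := 1 / 256000) hF' hb1 (by norm_num) (z := z) (by linarith)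
    norm_num at this
    exact this
  have hsub1 : ball (0 : ℂ) (1 / 256000) ⊆ ball 0 (1 / 64000) := ball_subset_ball (by norm_num)
  have hd1 : ∀ z ∈ ball (0 : ℂ) (1 / 256000), ‖deriv F z - k‖ ≤ 65536000000 * ‖z‖ := by
    intro z hz
    have h1 := (convex_ball (0 : ℂ) (1 / 256000)).norm_image_sub_le_of_norm_deriv_le
      (f := deriv F) (C := 65536000000) (x := 0) (y := z)
      (fun w hw => ((hF.deriv isOpen_ball).differentiableAt
        (isOpen_ball.mem_nhds (hsub1 hw)))) hb2 (mem_ball_self (by norm_num)) hz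
    rwa [sub_zero] at h1
  have hd0 : ∀ z ∈ ball (0 : ℂ) (1 / 256000), ‖F z - k * z‖ ≤ 65536000000 * ‖z‖ ^ 2 := by
    intro z hz
    rw [mem_ball_zero_iff] at hz
    have hder : ∀ w ∈ closedBall (0 : ℂ) ‖z‖,
        HasDerivWithinAt (fun w => F w - k * w) (deriv F w - k) (closedBall (0 : ℂ) ‖z‖) w := by
      intro w hw
      rw [mem_closedBall_zero_iff] at hw
      have hw' : w ∈ ball (0 : ℂ) (1 / 64000) := by
        rw [mem_ball_zero_iff]
        linarith
      have e1 : HasDerivAt F (deriv F w) w :=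
        (hF.differentiableAt (isOpen_ball.mem_nhds hw')).hasDerivAt
      have e2 : HasDerivAt (fun w => F w - k * w) (deriv F w - k * 1) w :=
        e1.sub ((hasDerivAt_id w).const_mul k)
      rw [mul_one] at e2
      exact e2.hasDerivWithinAt
    have h1 := (convex_closedBall (0 : ℂ) ‖z‖).norm_image_sub_le_of_norm_hasDerivWithin_le hder
      (C := 65536000000 * ‖z‖)
      (fun w hw => by
        rw [mem_closedBall_zero_iff] at hw
        refine (hd1 w (by rw [mem_ball_zero_iff]; linarith)).trans ?_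
        gcongr) (mem_closedBall_self (norm_nonneg z)) (mem_closedBall_zero_iff.2 le_rfl)
    simp only [h0, mul_zero, sub_zero] at h1
    calc ‖F z - k * z‖ ≤ 65536000000 * ‖z‖ * ‖z‖ := h1
      _ = _ := by ring
  -- real part inequality
  have hineq : ∀ z : ℂ, ‖z‖ < 1 / 256000 → z.re < 0 →
      ((k - 1) * z).re ≤ 65536000000 * ‖z‖ ^ 2 := by
    intro z hz hzre
    have hz' : z ∈ ball (0 : ℂ) (1 / 256000) := by rwa [mem_ball_zero_iff]
    have h1 := (abs_le.1 ((Complex.abs_re_le_norm _).trans (hd0 z hz'))).1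
    have h2 := hre z (hsub1 hz') hzre
    rw [Complex.sub_re] at h1
    have h3 : ((k - 1) * z).re = (k * z).re - z.re := by
      rw [← Complex.sub_re]
      congr 1
      ring
    rw [h3]
    linarith
  have hsmall : ∀ x K : ℝ, 0 ≤ K → (∀ s : ℝ, 0 < s → s < 1 / 1000000 → x ≤ K * s) → x ≤ 0 := by
    intro x K hK h
    by_contra hx
    rw [not_le] at hx
    set s := min (1 / 2000000) (x / (2 * (K + 1))) with hs
    have hs0 : 0 < s := by positivity
    have hs1 : s ≤ 1 / 2000000 := min_le_left _ _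
    have hs2 : s ≤ x / (2 * (K + 1)) := min_le_right _ _
    have h1 := h s hs0 (by linarith)
    have h2 : s * (2 * (K + 1)) ≤ x := by rwa [le_div_iff₀ (by positivity)] at hs2
    nlinarith
  have hkre : 1 ≤ k.re := by
    have h1 := hsmall (1 - k.re) 65536000000 (by norm_num) (by
      intro s hs hs'
      have h2 := hineq (((-s : ℝ)) : ℂ) (by
        rw [Complex.norm_real, Real.norm_eq_abs, abs_neg, abs_of_pos hs]
        linarith) (by rw [Complex.ofReal_re]; linarith)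
      rw [Complex.norm_real, Real.norm_eq_abs, abs_neg, abs_of_pos hs, Complex.re_mul_ofReal,
        Complex.sub_re, Complex.one_re] at h2
      have h3 : s * (1 - k.re) ≤ s * (65536000000 * s) := by nlinarith
      exact le_of_mul_le_mul_left h3 hs)
    linarith
  have hkim : k.im = 0 := by
    have key : ∀ σ : ℝ, (σ = 1 ∨ σ = -1) → -(σ * k.im) ≤ 0 := by
      intro σ hσ
      have hσ2 : σ ^ 2 = 1 := by rcases hσ with rfl | rfl <;> norm_num
      apply hsmall _ (131072000000 + |k.re - 1|) (by positivity)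
      intro s hs hs'
      set z : ℂ := ⟨-(s ^ 2), σ * s⟩ with hz
      have hn : ‖z‖ ^ 2 = s ^ 4 + s ^ 2 := by
        rw [← Complex.normSq_eq_norm_sq, Complex.normSq_apply, hz]
        simp only
        calc -(s ^ 2) * -(s ^ 2) + σ * s * (σ * s) = s ^ 4 + σ ^ 2 * s ^ 2 := by ring
          _ = _ := by rw [hσ2]; ring
      have hs21 : s ^ 2 ≤ 1 := by nlinarith
      have hn2 : ‖z‖ ^ 2 ≤ 2 * s ^ 2 := by
        rw [hn]
        nlinarith [sq_nonneg s]
      have hn3 : ‖z‖ < 1 / 256000 := by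
        apply lt_of_pow_lt_pow_left₀ 2 (by norm_num)
        nlinarith
      have h2 := hineq z hn3 (by rw [hz]; simp only; nlinarith)
      have h3 : ((k - 1) * z).re = -(s ^ 2) * (k.re - 1) - k.im * (σ * s) := by
        rw [Complex.mul_re, Complex.sub_re, Complex.sub_im, Complex.one_re, Complex.one_im, hz]
        ring
      rw [h3] at h2
      have h4 : (k.re - 1) ≤ |k.re - 1| := le_abs_self _
      have h5 : s * (-(σ * k.im)) ≤ s * ((131072000000 + |k.re - 1|) * s) := by nlinarith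
      exact le_of_mul_le_mul_left h5 hs
    have h1 := key 1 (Or.inl rfl)
    have h2 := key (-1) (Or.inr rfl)
    linarith
  have hkk : k = ((k.re : ℝ) : ℂ) := by
    apply Complex.ext
    · simp
    · simp [hkim]
  refine ⟨k.re, hkre, ?_, ?_⟩
  · have h1 := hb1 0 (mem_ball_self (by norm_num))
    have h2 := (le_abs_self k.re).trans (Complex.abs_re_le_norm k)
    rw [← hk] at h1
    norm_num
    linarith
  · intro z hz
    have hz' : z ∈ ball (0 : ℂ) (1 / 256000) := by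
      rw [mem_ball_zero_iff]
      refine hz.trans_lt (by norm_num)
    rw [← hkk]
    constructor
    · refine (hd0 z hz').trans ?_
      gcongr
      norm_num
    · refine (hd1 z hz').trans ?_
      gcongr
      norm_num

lemma exp_mem_disc {ζ : ℂ} (h : ζ ∈ LH) : exp ζ ∈ ball (0 : ℂ) 1 := by
  rw [mem_ball_zero_iff, Complex.norm_exp]
  rw [← Real.exp_zero]
  exact Real.exp_lt_exp.2 h

/-- the normalized logarithm -/
lemma exists_L {h ψ : ℂ → ℂ} (hT : TT h ψ) : ∃ L L₀ : ℂ → ℂ,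
    DifferentiableOn ℂ L (ball 0 1) ∧ (∀ x ∈ ball (0 : ℂ) 1, x * exp (L x) = ψ x) ∧
    (∀ x ∈ ball (0 : ℂ) 1, (L x).re ≤ 0 ∧ -17 ≤ (L x).re) ∧
    DifferentiableOn ℂ L₀ (ball 1 (1 / 32000)) ∧ L₀ 1 = 0 ∧
    (∀ x ∈ ball (1 : ℂ) (1 / 32000), ‖L₀ x‖ ≤ 1) ∧
    (∀ x ∈ ball (0 : ℂ) 1, x ∈ ball (1 : ℂ) (1 / 32000) → L x = L₀ x) := by
  obtain ⟨⟨⟨hψd, hψi⟩, hψ1⟩, h0, h1, hdd, h3, hlow, -, -⟩ := hT
  have hnhds : ball (0 : ℂ) 1 ∈ 𝓝 (0 : ℂ) := isOpen_ball.mem_nhds (mem_ball_self one_pos)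
  set φ : ℂ → ℂ := dslope ψ 0 with hφ
  have hφd : DifferentiableOn ℂ φ (ball 0 1) := (Complex.differentiableOn_dslope hnhds).2 hψd
  have hφm : ∀ z : ℂ, z * φ z = ψ z := by
    intro z
    have := sub_smul_dslope ψ 0 z
    rw [sub_zero, h0, sub_zero, smul_eq_mul] at this
    exact this
  have hφ1 : ∀ z ∈ ball (0 : ℂ) 1, ‖φ z‖ ≤ 1 := by
    intro z hz
    have := Complex.norm_dslope_le_div_of_mapsTo_ball (R₂ := 1) hψd (by
      intro w hw
      rw [h0, mem_closedBall_zero_iff]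
      exact hψ1 w hw) hz
    simpa using this
  have hφl' : ∀ z ∈ ball (0 : ℂ) 1, z ≠ 0 → 1 / 10 ^ 7 ≤ ‖φ z‖ := by
    intro z hz hz0
    have h4 := hlow z hz
    rw [← hφm z, norm_mul] at h4
    have hz1 : 0 < ‖z‖ := norm_pos_iff.2 hz0
    have h5 : ‖z‖ * 1 ≤ ‖z‖ * (10 ^ 7 * ‖φ z‖) := by linarith
    have h6 := le_of_mul_le_mul_left h5 hz1
    rw [div_le_iff₀ (by norm_num)]
    linarith
  have hφl : ∀ z ∈ ball (0 : ℂ) 1, 1 / 10 ^ 7 ≤ ‖φ z‖ := by
    intro z hz
    by_cases hz0 : z = 0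
    · subst hz0
      have hc : ContinuousAt (fun z => ‖φ z‖) 0 := (hφd.continuousOn.continuousAt hnhds).norm
      have h4 : Tendsto (fun z => ‖φ z‖) (𝓝[≠] (0 : ℂ)) (𝓝 ‖φ 0‖) := hc.tendsto.mono_left nhdsWithin_le_nhds
      refine ge_of_tendsto h4 ?_
      filter_upwards [mem_nhdsWithin_of_mem_nhds hnhds, self_mem_nhdsWithin] with w hw hw0
      exact hφl' w hw hw0
    · exact hφl' z hz hz0
  have hφne : ∀ z ∈ ball (0 : ℂ) 1, φ z ≠ 0 := by
    intro z hz
    have := hφl z hz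
    rw [← norm_pos_iff]
    exact lt_of_lt_of_le (by norm_num) this
  have h00 : (0 : ℂ) ∈ ball (0 : ℂ) 1 := mem_ball_self one_pos
  obtain ⟨L₁', hL₁d, -, hL₁⟩ := Pool.Agent.Helper60.Rel.exists_log_disc
    (ψ := fun z => φ z / φ 0) (hφd.div_const _)
    (fun z hz => div_ne_zero (hφne z hz) (hφne 0 h00)) (div_self (hφne 0 h00))
  -- near one
  set φ₁ : ℂ → ℂ := fun x => ψ x / x with hφ₁
  have hB0 : ∀ x ∈ ball (1 : ℂ) (1 / 2000), 1999 / 2000 ≤ ‖x‖ := by
    intro x hx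
    rw [mem_ball, dist_eq_norm] at hx
    have h4 : ‖(1 : ℂ)‖ ≤ ‖x‖ + ‖x - 1‖ := by
      calc ‖(1 : ℂ)‖ = ‖x - (x - 1)‖ := by congr 1; ring
        _ ≤ _ := norm_sub_le _ _
    rw [norm_one] at h4
    linarith
  have hB0' : ∀ x ∈ ball (1 : ℂ) (1 / 2000), x ≠ 0 := by
    intro x hx
    rw [← norm_pos_iff]
    have := hB0 x hx
    linarith
  have hφ₁d : DifferentiableOn ℂ φ₁ (ball 1 (1 / 2000)) :=
    (hdd.mono subset_union_right).div differentiableOn_id hB0'
  have hφ₁b : ∀ x ∈ ball (1 : ℂ) (1 / 2000), ‖φ₁ x‖ ≤ 4 := by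
    intro x hx
    have h4 := hB0 x hx
    have h5 := h3 x hx
    rw [hφ₁]
    simp only
    rw [norm_div, div_le_iff₀ (by linarith)]
    linarith
  have hφφ : ∀ x : ℂ, x ≠ 0 → φ₁ x = φ x := by
    intro x hx
    rw [hφ₁]
    simp only
    rw [← hφm x]
    field_simp
  have hφ₁1 : φ₁ 1 = 1 := by
    rw [hφ₁]
    simp only
    rw [h1, div_one]
  have hnear1 : ∀ x ∈ ball (1 : ℂ) (1 / 32000), ‖φ₁ x - 1‖ ≤ 1 / 2 := by
    intro x hx
    have hx' := mem_ball.1 hx
    have h4 := (convex_ball (1 : ℂ) (1 / 4000)).norm_image_sub_le_of_norm_deriv_le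
      (f := φ₁) (C := 16000) (x := 1) (y := x)
      (fun w hw => hφ₁d.differentiableAt (isOpen_ball.mem_nhds
        (ball_subset_ball (by norm_num) hw)))
      (fun w hw => by
        rw [mem_ball] at hw
        have := cauchy (r := 1 / 4000) hφ₁d hφ₁b (by norm_num) (z := w) (by linarith)
        norm_num at this
        exact this) (mem_ball_self (by norm_num)) (ball_subset_ball (by norm_num) hx)
    rw [hφ₁1] at h4
    rw [dist_eq_norm] at hx'
    linarith
  set L₀ : ℂ → ℂ := fun x => Complex.log (φ₁ x) with hL₀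
  have hslit : ∀ x ∈ ball (1 : ℂ) (1 / 32000), φ₁ x ∈ slitPlane := by
    intro x hx
    have h4 := (abs_le.1 ((Complex.abs_re_le_norm _).trans (hnear1 x hx))).1
    rw [Complex.sub_re, Complex.one_re] at h4
    left
    linarith
  have hL₀d : DifferentiableOn ℂ L₀ (ball 1 (1 / 32000)) :=
    (hφ₁d.mono (ball_subset_ball (by norm_num))).clog hslit
  have hL₀b : ∀ x ∈ ball (1 : ℂ) (1 / 32000), ‖L₀ x‖ ≤ 1 := by
    intro x hx
    have h4 := hnear1 x hx
    have h5 := Complex.norm_log_one_add_half_le_self h4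
    have h6 : 1 + (φ₁ x - 1) = φ₁ x := by ring
    rw [h6] at h5
    rw [hL₀]
    simp only
    linarith
  have hL₀1 : L₀ 1 = 0 := by
    rw [hL₀]
    simp only
    rw [hφ₁1, Complex.log_one]
  have hL₀e : ∀ x ∈ ball (1 : ℂ) (1 / 32000), exp (L₀ x) = φ₁ x := by
    intro x hx
    rw [hL₀]
    exact Complex.exp_log (slitPlane_ne_zero (hslit x hx))
  -- base point
  set x₀ : ℂ := ((63999 / 64000 : ℝ) : ℂ) with hx₀
  have hx₀0 : x₀ ∈ ball (0 : ℂ) 1 := by
    rw [mem_ball_zero_iff, hx₀, Complex.norm_real]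
    norm_num
  have hx₀1 : x₀ ∈ ball (1 : ℂ) (1 / 32000) := by
    rw [mem_ball, dist_eq_norm, hx₀]
    have : ((63999 / 64000 : ℝ) : ℂ) - 1 = ((-1 / 64000 : ℝ) : ℂ) := by
      push_cast
      norm_num
    rw [this, Complex.norm_real]
    norm_num
  have hx₀ne : x₀ ≠ 0 := by
    rw [hx₀]
    exact_mod_cast (by norm_num : (63999 / 64000 : ℝ) ≠ 0)
  set L : ℂ → ℂ := fun z => L₁' z - L₁' x₀ + L₀ x₀ with hL
  have hLd : DifferentiableOn ℂ L (ball 0 1) := (hL₁d.sub_const _).add_const _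
  have hLe : ∀ x ∈ ball (0 : ℂ) 1, exp (L x) = φ x := by
    intro x hx
    rw [hL]
    simp only
    rw [Complex.exp_add, Complex.exp_sub, hL₁ x hx, hL₁ x₀ hx₀0, hL₀e x₀ hx₀1, hφφ x₀ hx₀ne]
    have e1 := hφne 0 h00
    have e2 := hφne x₀ hx₀0
    field_simp
  refine ⟨L, L₀, hLd, ?_, ?_, hL₀d, hL₀1, hL₀b, ?_⟩
  · intro x hx
    rw [hLe x hx, hφm]
  · intro x hx
    have h4 : Real.exp (L x).re = ‖φ x‖ := by
      rw [← Complex.norm_exp, hLe x hx]
    constructor
    · have h5 := hφ1 x hx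
      rw [← h4] at h5
      exact Real.exp_le_one_iff.1 h5
    · have h5 := hφl x hx
      rw [← h4] at h5
      by_contra hc
      rw [not_le] at hc
      have h6 : Real.exp (L x).re ≤ Real.exp (-17) := Real.exp_le_exp.2 hc.le
      have h7 : Real.exp (-17) < 1 / 10 ^ 7 := by
        rw [Real.exp_neg, inv_eq_one_div]
        apply one_div_lt_one_div_of_lt (by norm_num)
        have h8 : (2.7182818283 : ℝ) ^ 17 < Real.exp 17 := by
          have h9 : Real.exp 17 = Real.exp 1 ^ 17 := by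
            rw [← Real.exp_nat_mul]
            norm_num
          rw [h9]
          exact pow_lt_pow_left₀ Real.exp_one_gt_d9 (by norm_num) (by norm_num)
        refine lt_trans ?_ h8
        norm_num
      linarith
  · intro x hx hx1
    set S : Set ℂ := ball (0 : ℂ) 1 ∩ ball 1 (1 / 32000) with hS
    have hSo : IsOpen S := isOpen_ball.inter isOpen_ball
    have hSc : Convex ℝ S := (convex_ball _ _).inter (convex_ball _ _)
    set D : ℂ → ℂ := fun z => L z - L₀ z with hD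
    have hDd : ∀ z ∈ S, DifferentiableAt ℂ D z := by
      intro z hz
      exact (hLd.differentiableAt (isOpen_ball.mem_nhds hz.1)).sub
        (hL₀d.differentiableAt (isOpen_ball.mem_nhds hz.2))
    have hDe : ∀ z ∈ S, exp (D z) = 1 := by
      intro z hz
      have hz0 : z ≠ 0 := hB0' z (ball_subset_ball (by norm_num) hz.2)
      rw [hD]
      simp only
      rw [Complex.exp_sub, hLe z hz.1, hL₀e z hz.2, hφφ z hz0]
      exact div_self (hφne z hz.1)
    have hDder : ∀ z ∈ S, deriv D z = 0 := by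
      intro z hz
      have e1 : HasDerivAt (fun w => exp (D w)) (exp (D z) * deriv D z) z :=
        (hDd z hz).hasDerivAt.cexp
      have e2 : (fun w => exp (D w)) =ᶠ[𝓝 z] fun _ => 1 := by
        filter_upwards [hSo.mem_nhds hz] with w hw
        exact hDe w hw
      have e3 := e2.deriv_eq
      rw [e1.deriv, deriv_const, hDe z hz, one_mul] at e3
      exact e3
    have h4 := hSc.norm_image_sub_le_of_norm_deriv_le (f := D) (C := 0) (x := x₀) (y := x)
      hDd (fun z hz => by rw [hDder z hz, norm_zero]) ⟨hx₀0, hx₀1⟩ ⟨hx, hx1⟩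
    rw [zero_mul] at h4
    have h5 : D x = D x₀ := sub_eq_zero.1 (norm_le_zero_iff.1 h4)
    have h6 : D x₀ = 0 := by
      rw [hD, hL]
      simp
    rw [h6] at h5
    exact sub_eq_zero.1 h5

/-- bound of the logarithm on a smaller disc -/
lemma L_bound {L L₀ : ℂ → ℂ} (hLd : DifferentiableOn ℂ L (ball 0 1))
    (hLr : ∀ x ∈ ball (0 : ℂ) 1, (L x).re ≤ 0 ∧ -17 ≤ (L x).re)
    (hL₀ : ∀ x ∈ ball (1 : ℂ) (1 / 32000), ‖L₀ x‖ ≤ 1)
    (hLL : ∀ x ∈ ball (0 : ℂ) 1, x ∈ ball (1 : ℂ) (1 / 32000) → L x = L₀ x)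
    {x : ℂ} (hx : ‖x‖ ≤ 1 / 2) : ‖L x‖ ≤ 10 ^ 7 := by
  set x₀ : ℂ := ((63999 / 64000 : ℝ) : ℂ) with hx₀
  have hn₀ : ‖x₀‖ = 63999 / 64000 := by
    rw [hx₀, Complex.norm_real]
    norm_num
  have hx₀0 : x₀ ∈ ball (0 : ℂ) 1 := by
    rw [mem_ball_zero_iff, hn₀]
    norm_num
  have hx₀1 : x₀ ∈ ball (1 : ℂ) (1 / 32000) := by
    rw [mem_ball, dist_eq_norm, hx₀]
    have : ((63999 / 64000 : ℝ) : ℂ) - 1 = ((-1 / 64000 : ℝ) : ℂ) := by
      push_cast
      norm_num
    rw [this, Complex.norm_real]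
    norm_num
  have hb0 : ‖L x₀‖ ≤ 1 := by
    rw [hLL x₀ hx₀0 hx₀1]
    exact hL₀ x₀ hx₀1
  have hder : ∀ z ∈ closedBall (0 : ℂ) (63999 / 64000), ‖deriv L z‖ ≤ 64000 * 36 := by
    intro z hz
    rw [mem_closedBall_zero_iff] at hz
    have hsub : ball z (1 / 64000) ⊆ ball (0 : ℂ) 1 := by
      intro w hw
      rw [mem_ball, dist_eq_norm] at hw
      rw [mem_ball_zero_iff]
      calc ‖w‖ = ‖(w - z) + z‖ := by congr 1; ring
        _ ≤ ‖w - z‖ + ‖z‖ := norm_add_le _ _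
        _ < 1 := by linarith
    have hz1 : z ∈ ball (0 : ℂ) 1 := by
      rw [mem_ball_zero_iff]
      linarith
    have h1 := schwarz_disc (f := fun w => L w - 1) (ζ := z) (t := 1 / 64000) (by norm_num)
      ((hLd.mono hsub).sub_const 1) (fun w hw => by
        have := (hLr w (hsub hw)).1
        rw [Complex.sub_re, Complex.one_re]
        linarith)
    rw [deriv_sub_const, Complex.sub_re, Complex.one_re] at h1
    have h2 := (hLr z hz1).2
    linarith
  have h1 := (convex_closedBall (0 : ℂ) (63999 / 64000)).norm_image_sub_le_of_norm_deriv_le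
    (f := L) (x := x₀) (y := x)
    (fun z hz => by
      rw [mem_closedBall_zero_iff] at hz
      exact hLd.differentiableAt (isOpen_ball.mem_nhds (by rw [mem_ball_zero_iff]; linarith)))
    hder (by rw [mem_closedBall_zero_iff, hn₀]) (by rw [mem_closedBall_zero_iff]; linarith)
  have h2 : ‖x - x₀‖ ≤ 2 := by
    refine (norm_sub_le _ _).trans ?_
    rw [hn₀]
    linarith
  calc ‖L x‖ = ‖(L x - L x₀) + L x₀‖ := by congr 1; ring
    _ ≤ ‖L x - L x₀‖ + ‖L x₀‖ := norm_add_le _ _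
    _ ≤ 64000 * 36 * 2 + 1 := by
      refine add_le_add (h1.trans ?_) hb0
      gcongr
    _ ≤ _ := by norm_num

theorem hTl : StTl := by
  refine ⟨10 ^ 11, by norm_num, ?_⟩
  intro h ψ hT
  obtain ⟨L, L₀, hLd, hLe, hLr, hL₀d, hL₀1, hL₀b, hLL⟩ := exists_L hT
  obtain ⟨⟨⟨hψd, hψi⟩, hψ1⟩, -⟩ := hT
  have hexp : ∀ ζ ∈ LH, exp (ζ + L (exp ζ)) = ψ (exp ζ) := by
    intro ζ hζ
    rw [Complex.exp_add, hLe _ (exp_mem_disc hζ)]
  -- the local function
  have hmem : ∀ ζ ∈ ball (0 : ℂ) (1 / 64000), exp ζ ∈ ball (1 : ℂ) (1 / 32000) := by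
    intro ζ hζ
    rw [mem_ball_zero_iff] at hζ
    rw [mem_ball, dist_eq_norm]
    have := Complex.norm_exp_sub_one_le (x := ζ) (by linarith)
    linarith
  have hF : DifferentiableOn ℂ (fun ζ => ζ + L₀ (exp ζ)) (ball 0 (1 / 64000)) :=
    differentiableOn_id.add (hL₀d.comp Complex.differentiable_exp.differentiableOn hmem)
  have hFb : ∀ z ∈ ball (0 : ℂ) (1 / 64000), ‖z + L₀ (exp z)‖ ≤ 2 := by
    intro z hz
    have h1 := hL₀b _ (hmem z hz)
    rw [mem_ball_zero_iff] at hz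
    refine (norm_add_le _ _).trans ?_
    linarith
  have hF0 : (0 : ℂ) + L₀ (exp 0) = 0 := by
    rw [Complex.exp_zero, hL₀1, zero_add]
  have heq : ∀ ζ ∈ LH, ζ ∈ ball (0 : ℂ) (1 / 64000) → ζ + L (exp ζ) = ζ + L₀ (exp ζ) := by
    intro ζ hζ hζ'
    rw [hLL _ (exp_mem_disc hζ) (hmem ζ hζ')]
  have hre : ∀ ζ ∈ LH, (ζ + L (exp ζ)).re ≤ ζ.re := by
    intro ζ hζ
    rw [Complex.add_re]
    have := (hLr _ (exp_mem_disc hζ)).1
    linarith
  obtain ⟨κ, hκ1, hκ2, hκ⟩ := local_part (F := fun ζ => ζ + L₀ (exp ζ)) hF hFb hF0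
    (fun z hz hzre => by
      have hz' : z ∈ LH := hzre
      have := hre z hz'
      rw [heq z hz' hz] at this
      exact this)
  refine ⟨fun ζ => ζ + L (exp ζ), κ, ⟨?_, ?_, ?_, hre, ?_⟩, ⟨hκ1, hκ2, ?_⟩, hexp⟩
  · exact differentiableOn_id.add (hLd.comp Complex.differentiable_exp.differentiableOn
      (fun ζ hζ => exp_mem_disc hζ))
  · intro ζ hζ ζ' hζ' heq'
    simp only at heq'
    have h1 : exp ζ = exp ζ' := by
      apply hψi (exp_mem_disc hζ) (exp_mem_disc hζ')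
      rw [← hexp ζ hζ, ← hexp ζ' hζ', heq']
    rw [h1] at heq'
    exact add_right_cancel heq'
  · intro ζ hζ
    simp only
    rw [Complex.exp_add, Complex.exp_two_pi_mul_I, mul_one]
    ring
  · intro ζ hζ
    have h1 : ‖exp ζ‖ ≤ 1 / 2 := by
      rw [Complex.norm_exp]
      have h2 : Real.exp ζ.re ≤ Real.exp (-1) := Real.exp_le_exp.2 hζ
      have h3 : Real.exp (-1) < 1 / 2 := by
        rw [Real.exp_neg, inv_eq_one_div]
        apply one_div_lt_one_div_of_lt (by norm_num)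
        linarith [Real.exp_one_gt_d9]
      linarith
    have h2 := L_bound hLd hLr hL₀b hLL h1
    simp only
    rw [add_sub_cancel_left]
    exact h2.trans (by norm_num)
  · intro ζ hζ hn
    have hζ' : ζ ∈ ball (0 : ℂ) (1 / 64000) := by
      rw [mem_ball_zero_iff]
      exact hn.trans_lt (by norm_num)
    obtain ⟨h1, h2⟩ := hκ ζ hn
    have h3 : (fun ζ => ζ + L (exp ζ)) =ᶠ[𝓝 ζ] fun ζ => ζ + L₀ (exp ζ) := by
      filter_upwards [isOpen_LH.mem_nhds hζ, isOpen_ball.mem_nhds hζ'] with w hw hw'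
      exact heq w hw hw'
    rw [h3.deriv_eq]
    simp only
    rw [heq ζ hζ hζ']
    exact ⟨h1, h2⟩

end Pool.Agent.Helper47.SR.TL
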